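import Mathlib

/-!
# Three stars: the combinatorial core

`Md x y z i0 j1 j2 s Z`: the rows are `1, ..., y + z + 1`, the row `i0` is special; the columns are
`1, ..., x + 2`, the columns `j1 < j2` are special.  The row `i ≠ i0` has the value `i + j2` if
`i ∈ Z` and `i + j1` otherwise, the column `j ≠ j1, j2` has the value `j + i0`.  The values are the
`x + y + z` integers from `s` on.
-/

set_option autoImplicit false

namespace Pool.Agent.Helper7.SF

open Finset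

/-- two rows of centres and one column, see above -/
def Md (x y z i0 j1 j2 s : ℕ) (Z : Finset ℕ) : Prop :=
  1 ≤ i0 ∧ i0 ≤ y + z + 1 ∧ 1 ≤ j1 ∧ j1 < j2 ∧ j2 ≤ x + 2 ∧
  (∀ i ∈ Z, 1 ≤ i ∧ i ≤ y + z + 1 ∧ i ≠ i0) ∧ Z.card = z ∧
  (∀ v, s ≤ v → v < s + (x + y + z) →
    (∃ i, 1 ≤ i ∧ i ≤ y + z + 1 ∧ i ≠ i0 ∧ i ∉ Z ∧ i + j1 = v) ∨ (∃ i ∈ Z, i + j2 = v) ∨
    ∃ j, 1 ≤ j ∧ j ≤ x + 2 ∧ j ≠ j1 ∧ j ≠ j2 ∧ j + i0 = v) ∧
  (∀ i, 1 ≤ i → i ≤ y + z + 1 → i ≠ i0 → i ∉ Z → s ≤ i + j1 ∧ i + j1 < s + (x + y + z)) ∧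
  (∀ i ∈ Z, s ≤ i + j2 ∧ i + j2 < s + (x + y + z)) ∧
  (∀ j, 1 ≤ j → j ≤ x + 2 → j ≠ j1 → j ≠ j2 → s ≤ j + i0 ∧ j + i0 < s + (x + y + z))

/-- the rows which are not special and not in `Z` -/
def cmpl (y z i0 : ℕ) (Z : Finset ℕ) : Finset ℕ := ((Icc 1 (y + z + 1)).erase i0) \ Z

theorem mem_cmpl {y z i0 : ℕ} {Z : Finset ℕ} {i : ℕ} :
    i ∈ cmpl y z i0 Z ↔ 1 ≤ i ∧ i ≤ y + z + 1 ∧ i ≠ i0 ∧ i ∉ Z := by
  simp only [cmpl, mem_sdiff, mem_erase, mem_Icc]
  tauto

theorem card_cmpl {y z i0 : ℕ} {Z : Finset ℕ} (h1 : 1 ≤ i0) (h2 : i0 ≤ y + z + 1)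
    (hZ : ∀ i ∈ Z, 1 ≤ i ∧ i ≤ y + z + 1 ∧ i ≠ i0) (hc : Z.card = z) :
    (cmpl y z i0 Z).card = y := by
  have hsub : Z ⊆ (Icc 1 (y + z + 1)).erase i0 := by
    intro i hi
    rw [mem_erase, mem_Icc]
    exact ⟨(hZ i hi).2.2, (hZ i hi).1, (hZ i hi).2.1⟩
  rw [cmpl, card_sdiff_of_subset hsub, card_erase_of_mem (mem_Icc.2 ⟨h1, h2⟩), Nat.card_Icc, hc]
  omega

theorem md_range {x y z i0 j1 j2 s : ℕ} {Z : Finset ℕ} (h : Md x y z i0 j1 j2 s Z)
    (hx : 1 ≤ x) : 2 ≤ s ∧ s ≤ 4 := by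
  obtain ⟨h1, h2, h3, h4, h5, hZ, -, hc, -⟩ := h
  constructor
  · rcases hc s le_rfl (by omega) with ⟨i, hi⟩ | ⟨i, hi, hi'⟩ | ⟨j, hj⟩
    · omega
    · have := hZ i hi
      omega
    · omega
  · rcases hc (s + (x + y + z) - 1) (by omega) (by omega) with ⟨i, hi⟩ | ⟨i, hi, hi'⟩ | ⟨j, hj⟩
    · omega
    · have := hZ i hi
      omega
    · omega

theorem md_rev {x y z i0 j1 j2 s : ℕ} {Z : Finset ℕ} (h : Md x y z i0 j1 j2 s Z)
    (hx : 1 ≤ x) : Md x z y (y + z + 2 - i0) (x + 3 - j2) (x + 3 - j1) (6 - s)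
      ((cmpl y z i0 Z).image fun i => y + z + 2 - i) := by
  obtain ⟨hs1, hs2⟩ := md_range h hx
  obtain ⟨h1, h2, h3, h4, h5, hZ, hcard, hc, hr1, hr2, hr3⟩ := h
  have hmem : ∀ i', i' ∈ ((cmpl y z i0 Z).image fun i => y + z + 2 - i) ↔
      1 ≤ i' ∧ i' ≤ y + z + 1 ∧ i' ≠ y + z + 2 - i0 ∧ y + z + 2 - i' ∉ Z := by
    intro i'
    rw [mem_image]
    constructor
    · rintro ⟨i, hi, rfl⟩
      rw [mem_cmpl] at hi
      refine ⟨by omega, by omega, by omega, ?_⟩
      have : y + z + 2 - (y + z + 2 - i) = i := by omega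
      rw [this]
      exact hi.2.2.2
    · rintro ⟨a1, a2, a3, a4⟩
      exact ⟨y + z + 2 - i', mem_cmpl.2 ⟨by omega, by omega, by omega, a4⟩, by omega⟩
  refine ⟨by omega, by omega, by omega, by omega, by omega, ?_, ?_, ?_, ?_, ?_, ?_⟩
  · intro i' hi'
    have := (hmem i').1 hi'
    omega
  · rw [card_image_of_injOn, card_cmpl h1 h2 hZ hcard]
    intro a ha b hb hab
    have ha' := mem_cmpl.1 (mem_coe.1 ha)
    have hb' := mem_cmpl.1 (mem_coe.1 hb)
    dsimp only at hab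
    omega
  · intro v hv1 hv2
    rcases hc (x + y + z + 5 - v) (by omega) (by omega) with ⟨i, hi⟩ | ⟨i, hi, hi'⟩ | ⟨j, hj⟩
    · refine Or.inr (Or.inl ⟨y + z + 2 - i, (hmem _).2 ⟨by omega, by omega, by omega, ?_⟩,
        by omega⟩)
      have : y + z + 2 - (y + z + 2 - i) = i := by omega
      rw [this]
      exact hi.2.2.2.1
    · have h6 := hZ i hi
      refine Or.inl ⟨y + z + 2 - i, by omega, by omega, by omega, ?_, by omega⟩
      intro h7
      have h8 := ((hmem _).1 h7).2.2.2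
      have : y + z + 2 - (y + z + 2 - i) = i := by omega
      rw [this] at h8
      exact h8 hi
    · exact Or.inr (Or.inr ⟨x + 3 - j, by omega, by omega, by omega, by omega, by omega⟩)
  · intro i' hi1 hi2 hi3 hi4
    have h6 : y + z + 2 - i' ∈ Z := by
      by_contra h7
      exact hi4 ((hmem _).2 ⟨hi1, by omega, hi3, h7⟩)
    have h8 := hr2 _ h6
    omega
  · intro i' hi'
    obtain ⟨a1, a2, a3, a4⟩ := (hmem _).1 hi'
    have h8 := hr1 (y + z + 2 - i') (by omega) (by omega) (by omega) a4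
    omega
  · intro j hj1 hj2 hj3 hj4
    have h8 := hr3 (x + 3 - j) (by omega) (by omega) (by omega) (by omega)
    omega

theorem sum_cover (B T : Finset ℕ) (φ : ℕ → ℕ) (h : ∀ v ∈ T, ∃ i ∈ B, φ i = v)
    (hc : B.card ≤ T.card) : ∑ i ∈ B, φ i = ∑ v ∈ T, v ∧ ∀ i ∈ B, φ i ∈ T := by
  have hsub : T ⊆ B.image φ := fun v hv => mem_image.2 (h v hv)
  have h1 : T = B.image φ := eq_of_subset_of_card_le hsub (card_image_le.trans hc)
  have h2 : Set.InjOn φ B := by
    rw [← card_image_iff]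
    refine le_antisymm card_image_le ?_
    rw [← h1]
    exact hc
  constructor
  · rw [h1, sum_image h2]
  · intro i hi
    rw [h1]
    exact mem_image_of_mem φ hi

/-- the value of a row -/
def rv (j1 j2 : ℕ) (Z : Finset ℕ) (i : ℕ) : ℕ := if i ∈ Z then i + j2 else i + j1

theorem md_two {x y z i0 j1 j2 : ℕ} {Z : Finset ℕ} (h : Md x y z i0 j1 j2 2 Z)
    (hx : 1 ≤ x) (hy : 1 ≤ y) (hz : 1 ≤ z) : False := by
  obtain ⟨h1, h2, h3, h4, h5, hZ, -, hc, -⟩ := h
  have hcov : ∀ v ∈ Icc 2 i0, ∃ i ∈ Icc 1 (i0 - 1), rv j1 j2 Z i = v := by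
    intro v hv
    rw [mem_Icc] at hv
    rcases hc v (by omega) (by omega) with ⟨i, hi⟩ | ⟨i, hi, hi'⟩ | ⟨j, hj⟩
    · refine ⟨i, mem_Icc.2 ⟨by omega, by omega⟩, ?_⟩
      rw [rv, if_neg hi.2.2.2.1]
      exact hi.2.2.2.2
    · have h6 := hZ i hi
      refine ⟨i, mem_Icc.2 ⟨by omega, by omega⟩, ?_⟩
      rw [rv, if_pos hi]
      exact hi'
    · omega
  obtain ⟨-, hval⟩ := sum_cover _ _ _ hcov (by rw [Nat.card_Icc, Nat.card_Icc]; omega)
  by_cases h6 : i0 + j1 < 2 + (x + y + z)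
  · rcases hc (i0 + j1) (by omega) h6 with ⟨i, hi⟩ | ⟨i, hi, hi'⟩ | ⟨j, hj⟩
    · omega
    · have h7 := hZ i hi
      have h8 := hval i (mem_Icc.2 ⟨by omega, by omega⟩)
      rw [rv, if_pos hi, mem_Icc] at h8
      omega
    · omega
  · obtain ⟨i, hi, hi'⟩ := hcov 2 (mem_Icc.2 ⟨le_rfl, by omega⟩)
    rw [mem_Icc] at hi
    rw [rv] at hi'
    split_ifs at hi' <;> omega

theorem sum_shift (n : ℕ) : ∑ v ∈ Icc 3 (n + 2), v + 3 = ∑ i ∈ Icc 1 (n + 1), i + (n + 2) := by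
  induction n with
  | zero => decide
  | succ n ih =>
    rw [sum_Icc_succ_top (by omega), sum_Icc_succ_top (by omega : 1 ≤ n + 1 + 1)]
    omega

theorem md_below {x y z i0 j1 j2 : ℕ} {Z : Finset ℕ} (h : Md x y z i0 j1 j2 3 Z)
    (hx : 1 ≤ x) (hy : 1 ≤ y) (hz : 1 ≤ z) :
    (j1 = 1 ∧ (j2 - j1) * (Z.filter (· < i0)).card = i0 - 1) ∨
    (j2 = j1 + 1 ∧ (Z.filter (· < i0)).card = 1 ∧ (j1 = 2 ∨ i0 = 2)) := by
  obtain ⟨h1, h2, h3, h4, h5, hZ, -, hc, -, -, hr3⟩ := h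
  rcases Nat.lt_or_ge i0 2 with hi0 | hi0
  · left
    have hi : i0 = 1 := by omega
    subst hi
    have hj : j1 = 1 := by
      by_contra hj
      have := hr3 1 le_rfl (by omega) (by omega) (by omega)
      omega
    refine ⟨hj, ?_⟩
    have : Z.filter (· < 1) = ∅ := by
      rw [filter_eq_empty_iff]
      intro i hi
      have := hZ i hi
      omega
    rw [this, card_empty, mul_zero]
    rfl
  · obtain ⟨n, rfl⟩ : ∃ n, i0 = n + 2 := ⟨i0 - 2, by omega⟩
    have hlast : ∃ i ∈ Z, i + j2 = n + 2 + j1 := by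
      rcases hc (n + 2 + j1) (by omega) (by omega) with ⟨i, hi⟩ | ⟨i, hi, hi'⟩ | ⟨j, hj⟩
      · omega
      · exact ⟨i, hi, hi'⟩
      · omega
    have hcov : ∀ v ∈ insert (n + 2 + j1) (Icc 3 (n + 2)), ∃ i ∈ Icc 1 (n + 1),
        rv j1 j2 Z i = v := by
      intro v hv
      rw [mem_insert, mem_Icc] at hv
      rcases hv with rfl | hv
      · obtain ⟨i, hi, hi'⟩ := hlast
        have h6 := hZ i hi
        refine ⟨i, mem_Icc.2 ⟨by omega, by omega⟩, ?_⟩
        rw [rv, if_pos hi]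
        exact hi'
      · rcases hc v (by omega) (by omega) with ⟨i, hi⟩ | ⟨i, hi, hi'⟩ | ⟨j, hj⟩
        · refine ⟨i, mem_Icc.2 ⟨by omega, by omega⟩, ?_⟩
          rw [rv, if_neg hi.2.2.2.1]
          exact hi.2.2.2.2
        · have h6 := hZ i hi
          refine ⟨i, mem_Icc.2 ⟨by omega, by omega⟩, ?_⟩
          rw [rv, if_pos hi]
          exact hi'
        · omega
    have hnot : n + 2 + j1 ∉ Icc 3 (n + 2) := by
      rw [mem_Icc]
      omega
    obtain ⟨hsum, -⟩ := sum_cover _ _ _ hcov (by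
      rw [card_insert_of_notMem hnot, Nat.card_Icc, Nat.card_Icc]
      omega)
    rw [sum_insert hnot] at hsum
    have hN : (Icc 1 (n + 1)).filter (· ∈ Z) = Z.filter (· < n + 2) := by
      ext i
      rw [mem_filter, mem_filter, mem_Icc]
      constructor
      · rintro ⟨a, b⟩
        exact ⟨b, by omega⟩
      · rintro ⟨a, b⟩
        have := hZ i a
        exact ⟨by omega, a⟩
    have hsum2 : ∑ i ∈ Icc 1 (n + 1), rv j1 j2 Z i =
        ∑ i ∈ Icc 1 (n + 1), i + (n + 1) * j1 + (j2 - j1) * (Z.filter (· < n + 2)).card := by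
      have e : ∀ i, rv j1 j2 Z i = i + j1 + if i ∈ Z then (j2 - j1) else 0 := by
        intro i
        rw [rv]
        split_ifs <;> omega
      simp only [e, sum_add_distrib, sum_const, Nat.card_Icc, smul_eq_mul]
      rw [← sum_filter, sum_const, hN, smul_eq_mul, mul_comm (j2 - j1)]
      rfl
    have hs := sum_shift n
    rw [hsum2] at hsum
    have hNb : 1 ≤ (Z.filter (· < n + 2)).card := by
      obtain ⟨i, hi, hi'⟩ := hlast
      exact card_pos.2 ⟨i, mem_filter.2 ⟨hi, by omega⟩⟩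
    set N := (Z.filter (· < n + 2)).card with hNdef
    have key : n * j1 + (j2 - j1) * N = 2 * n + 1 := by
      have e1 : (n + 1) * j1 = n * j1 + j1 := by ring
      rw [e1] at hsum
      omega
    have hd : 1 ≤ j2 - j1 := by omega
    have hdN : 1 ≤ (j2 - j1) * N := Nat.mul_pos hd hNb
    rcases Nat.lt_or_ge j1 2 with hj | hj
    · left
      have hj' : j1 = 1 := by omega
      refine ⟨hj', ?_⟩
      rw [hj', mul_one] at key
      rw [hj']
      omega
    · right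
      have h7 : (j2 - j1) * N = 1 ∧ (j1 = 2 ∨ n + 2 = 2) := by
        rcases Nat.lt_or_ge j1 3 with hj3 | hj3
        · have hj' : j1 = 2 := by omega
          rw [hj'] at key
          rw [hj']
          exact ⟨by omega, Or.inl rfl⟩
        · have h8 : n * 3 ≤ n * j1 := Nat.mul_le_mul_left n hj3
          have hn : n = 0 := by omega
          subst hn
          exact ⟨by omega, Or.inr rfl⟩
      obtain ⟨h9, h10⟩ := h7
      have h11 := Nat.eq_one_of_mul_eq_one_right h9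
      have h12 := Nat.eq_one_of_mul_eq_one_left h9
      exact ⟨by omega, h12, h10⟩

theorem md_above {x y z i0 j1 j2 : ℕ} {Z : Finset ℕ} (h : Md x y z i0 j1 j2 3 Z)
    (hx : 1 ≤ x) (hy : 1 ≤ y) (hz : 1 ≤ z) :
    (j2 = x + 2 ∧ (j2 - j1) * ((cmpl y z i0 Z).filter (i0 < ·)).card = y + z + 1 - i0) ∨
    (j2 = j1 + 1 ∧ ((cmpl y z i0 Z).filter (i0 < ·)).card = 1 ∧
      (j2 = x + 1 ∨ i0 = y + z)) := by
  have h' := md_rev h hx
  have hb := md_below h' hx hz hy
  have hcard : (((cmpl y z i0 Z).image fun i => y + z + 2 - i).filter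
      (· < y + z + 2 - i0)).card = ((cmpl y z i0 Z).filter (i0 < ·)).card := by
    have e : ((cmpl y z i0 Z).image fun i => y + z + 2 - i).filter (· < y + z + 2 - i0) =
        ((cmpl y z i0 Z).filter (i0 < ·)).image fun i => y + z + 2 - i := by
      ext i'
      simp only [mem_filter, mem_image]
      constructor
      · rintro ⟨⟨i, hi, rfl⟩, hlt⟩
        have h7 := mem_cmpl.1 hi
        exact ⟨i, ⟨hi, by omega⟩, rfl⟩
      · rintro ⟨i, ⟨hi, hlt⟩, rfl⟩
        have h7 := mem_cmpl.1 hi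
        exact ⟨⟨i, hi, rfl⟩, by omega⟩
    rw [e, card_image_of_injOn]
    intro a ha b hb hab
    have ha' := mem_cmpl.1 (mem_filter.1 (mem_coe.1 ha)).1
    have hb' := mem_cmpl.1 (mem_filter.1 (mem_coe.1 hb)).1
    dsimp only at hab
    omega
  rw [hcard] at hb
  obtain ⟨h1, h2, h3, h4, h5, -⟩ := h
  have e : x + 3 - j1 - (x + 3 - j2) = j2 - j1 := by omega
  rw [e] at hb
  rcases hb with ⟨a, b⟩ | ⟨a, b, c⟩
  · left
    exact ⟨by omega, by omega⟩
  · right
    exact ⟨by omega, b, by omega⟩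

theorem md_count {y z i0 : ℕ} {Z : Finset ℕ} (h1 : 1 ≤ i0) (h2 : i0 ≤ y + z + 1)
    (hZ : ∀ i ∈ Z, 1 ≤ i ∧ i ≤ y + z + 1 ∧ i ≠ i0) (hcard : Z.card = z) :
    z + ((cmpl y z i0 Z).filter (i0 < ·)).card + i0 =
      (Z.filter (· < i0)).card + (y + z + 1) := by
  have e1 : (Z.filter (· < i0)).card + (Z.filter (i0 < ·)).card = z := by
    rw [← hcard, ← card_union_of_disjoint]
    · congr 1
      ext i
      rw [mem_union, mem_filter, mem_filter]
      constructor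
      · rintro (h | h) <;> exact h.1
      · intro h
        have := hZ i h
        rcases Nat.lt_or_ge i i0 with h3 | h3
        · exact Or.inl ⟨h, h3⟩
        · exact Or.inr ⟨h, by omega⟩
    · rw [disjoint_left]
      intro i hi hi'
      rw [mem_filter] at hi hi'
      omega
  have e2 : (Z.filter (i0 < ·)).card + ((cmpl y z i0 Z).filter (i0 < ·)).card =
      y + z + 1 - i0 := by
    rw [← card_union_of_disjoint]
    · have : Z.filter (i0 < ·) ∪ (cmpl y z i0 Z).filter (i0 < ·) = Icc (i0 + 1) (y + z + 1) := by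
        ext i
        rw [mem_union, mem_filter, mem_filter, mem_cmpl, mem_Icc]
        constructor
        · rintro (⟨h, h'⟩ | ⟨h, h'⟩)
          · have := hZ i h
            omega
          · omega
        · intro h
          by_cases h3 : i ∈ Z
          · exact Or.inl ⟨h3, by omega⟩
          · exact Or.inr ⟨⟨by omega, by omega, by omega, h3⟩, by omega⟩
      rw [this, Nat.card_Icc]
      omega
    · rw [disjoint_left]
      intro i hi hi'
      rw [mem_filter] at hi hi'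
      exact (mem_cmpl.1 hi'.1).2.2.2 hi.1
  omega

/-- the sizes of the three stars of a model -/
theorem md_main {x y z i0 j1 j2 s : ℕ} {Z : Finset ℕ} (h : Md x y z i0 j1 j2 s Z)
    (hx : 1 ≤ x) (hy : 1 ≤ y) (hz : 1 ≤ z) :
    x ≤ 2 ∨ y ≤ 2 ∨ z ≤ 2 ∨ ∃ k l, y = x * k + l ∧ z = x * l + k := by
  obtain ⟨hs1, hs2⟩ := md_range h hx
  have hs : s = 2 ∨ s = 3 ∨ s = 4 := by omega
  rcases hs with rfl | rfl | rfl
  · exact (md_two h hx hy hz).elim
  · have hb := md_below h hx hy hz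
    have ha := md_above h hx hy hz
    obtain ⟨h1, h2, h3, h4, h5, hZ, hcard, -⟩ := h
    have hcnt := md_count h1 h2 hZ hcard
    set N := (Z.filter (· < i0)).card
    set M := ((cmpl y z i0 Z).filter (i0 < ·)).card
    rcases hb with ⟨b1, b2⟩ | ⟨b1, b2, b3⟩
    · rcases ha with ⟨a1, a2⟩ | ⟨a1, a2, a3⟩
      · right
        right
        right
        subst b1
        have hd : j2 - 1 = x + 1 := by omega
        rw [hd] at b2 a2
        have e1 : (x + 1) * N = x * N + N := by ring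
        have e2 : (x + 1) * M = x * M + M := by ring
        exact ⟨N, M, by omega, by omega⟩
      · subst b1
        have hd : j2 - 1 = 1 := by omega
        rw [hd] at b2
        omega
    · rcases ha with ⟨a1, a2⟩ | ⟨a1, a2, a3⟩
      · have hd : j2 - j1 = 1 := by omega
        rw [hd] at a2
        omega
      · omega
  · exact (md_two (md_rev h hx) hx hz hy).elim

end Pool.Agent.Helper7.SF
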