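import Pool.Agent.Helper7.SF.Defs

/-!
# Star forests: labelings and colourings of the labels
-/

set_option autoImplicit false

namespace Pool.Agent.Helper7.SF

open Finset

variable {t : ℕ}

/-- the number of vertices -/
def pp (m : Fin t → ℕ) : ℕ := ∑ i, (m i + 1)

/-- the number of edges -/
def qq (m : Fin t → ℕ) : ℕ := ∑ i, m i

/-- The labels `cen i` of the centres and the star `col l` of the leaf with label `l`; the labels
`≤ a` are those of the first stable set, the sums are the `q` numbers from `s` on. -/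
structure Dt (m : Fin t → ℕ) (a : ℕ) (cen : Fin t → ℕ) (col : ℕ → Fin t) (s : ℕ) : Prop where
  ha : a ≤ pp m
  inj : Function.Injective cen
  hcen : ∀ i, 1 ≤ cen i ∧ cen i ≤ pp m
  hcol : ∀ i, ((Icc 1 (pp m)).filter (fun l => (∀ j, cen j ≠ l) ∧ col l = i)).card = m i
  side : ∀ l, 1 ≤ l → l ≤ pp m → (∀ j, cen j ≠ l) → (l ≤ a ↔ a < cen (col l))
  cov : ∀ v, s ≤ v → v < s + qq m → ∃ l, 1 ≤ l ∧ l ≤ pp m ∧ (∀ j, cen j ≠ l) ∧
    l + cen (col l) = v

theorem card_vert (m : Fin t → ℕ) : Fintype.card (Σ i : Fin t, Fin (m i + 1)) = pp m := by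
  rw [Fintype.card_sigma, pp]
  simp

/-- the edge to a leaf -/
def edg (m : Fin t → ℕ) (x : Σ i : Fin t, Fin (m i)) : Sym2 (Σ i : Fin t, Fin (m i + 1)) :=
  s(⟨x.1, 0⟩, ⟨x.1, x.2.succ⟩)

theorem edg_inj (m : Fin t → ℕ) : Function.Injective (edg m) := by
  rintro ⟨i, j⟩ ⟨i', j'⟩ h
  unfold edg at h
  rw [Sym2.eq_iff] at h
  rcases h with ⟨h1, h2⟩ | ⟨h1, h2⟩
  · have h3 := congrArg Sigma.fst h1
    dsimp only at h3
    subst h3
    have h4 := eq_of_heq (Sigma.mk.inj h2).2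
    rw [Fin.succ_inj] at h4
    exact congrArg (Sigma.mk i) h4
  · have h3 := congrArg Sigma.fst h1
    dsimp only at h3
    subst h3
    have h4 := eq_of_heq (Sigma.mk.inj h1).2
    exact absurd h4.symm (Fin.succ_ne_zero _)

theorem range_edg (m : Fin t → ℕ) : Set.range (edg m) = (starForest m).edgeSet := by
  ext e
  constructor
  · rintro ⟨⟨i, j⟩, rfl⟩
    rw [edg, SimpleGraph.mem_edgeSet]
    refine ⟨rfl, Or.inl ⟨rfl, ?_⟩⟩
    simp
  · induction e using Sym2.ind with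
    | _ x y =>
      intro h
      rw [SimpleGraph.mem_edgeSet] at h
      obtain ⟨i, u⟩ := x
      obtain ⟨i', w⟩ := y
      obtain ⟨h1, h2⟩ := h
      dsimp only at h1
      subst h1
      dsimp only at h2
      rcases h2 with ⟨h3, h4⟩ | ⟨h3, h4⟩
      · have e1 : u = 0 := Fin.ext h3
        have e2 : w ≠ 0 := fun h => h4 (by rw [h]; rfl)
        obtain ⟨j, rfl⟩ := Fin.exists_succ_eq.2 e2
        subst e1
        exact ⟨⟨i, j⟩, rfl⟩
      · have e1 : w = 0 := Fin.ext h4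
        have e2 : u ≠ 0 := fun h => h3 (by rw [h]; rfl)
        obtain ⟨j, rfl⟩ := Fin.exists_succ_eq.2 e2
        subst e1
        exact ⟨⟨i, j⟩, Sym2.eq_swap⟩

theorem card_edge (m : Fin t → ℕ) : (starForest m).edgeSet.ncard = qq m := by
  rw [← range_edg, ← Set.image_univ, Set.ncard_image_of_injective _ (edg_inj m), Set.ncard_univ,
    Nat.card_eq_fintype_card, Fintype.card_sigma, qq]
  simp

theorem adj_leaf (m : Fin t → ℕ) (i : Fin t) (j : Fin (m i)) :
    (starForest m).Adj ⟨i, 0⟩ ⟨i, j.succ⟩ := by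
  refine ⟨rfl, Or.inl ⟨rfl, ?_⟩⟩
  simp

theorem sums_eq (m : Fin t → ℕ) (f : (Σ i : Fin t, Fin (m i + 1)) → ℕ) :
    {n | ∃ u v, (starForest m).Adj u v ∧ f u + f v = n} =
      Set.range fun x : Σ i : Fin t, Fin (m i) => f ⟨x.1, 0⟩ + f ⟨x.1, x.2.succ⟩ := by
  ext n
  constructor
  · rintro ⟨u, v, h, rfl⟩
    have h1 : s(u, v) ∈ (starForest m).edgeSet := h
    rw [← range_edg] at h1
    obtain ⟨x, hx⟩ := h1
    unfold edg at hx
    rw [Sym2.eq_iff] at hx
    rcases hx with ⟨h2, h3⟩ | ⟨h2, h3⟩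
    · exact ⟨x, by rw [← h2, ← h3]⟩
    · exact ⟨x, by rw [← h2, ← h3]; exact add_comm _ _⟩
  · rintro ⟨x, rfl⟩
    exact ⟨_, _, adj_leaf m x.1 x.2, rfl⟩

/-- from a colouring to a labeling -/
theorem ssem_of {m : Fin t → ℕ} {a : ℕ} {cen : Fin t → ℕ} {col : ℕ → Fin t} {s : ℕ}
    (h : Dt m a cen col s) : IsSSEM (starForest m) := by
  classical
  obtain ⟨ha, inj, hcen, hcol, side, cov⟩ := h
  set L : Fin t → Finset ℕ := fun i =>
    (Icc 1 (pp m)).filter (fun l => (∀ j, cen j ≠ l) ∧ col l = i) with hL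
  have hmemL : ∀ i l, l ∈ L i ↔ (1 ≤ l ∧ l ≤ pp m) ∧ (∀ j, cen j ≠ l) ∧ col l = i := by
    intro i l
    rw [hL]
    simp only [mem_filter, mem_Icc]
  let e : ∀ i, L i ≃ Fin (m i) := fun i => (L i).equivFinOfCardEq (hcol i)
  let f : (Σ i : Fin t, Fin (m i + 1)) → ℕ := fun x =>
    Fin.cases (motive := fun _ => ℕ) (cen x.1) (fun j => ((e x.1).symm j : ℕ)) x.2
  have f0 : ∀ i, f ⟨i, 0⟩ = cen i := fun i => rfl
  have f1 : ∀ i (j : Fin (m i)), f ⟨i, j.succ⟩ = ((e i).symm j : ℕ) := fun i j => rfl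
  have hfL : ∀ i (j : Fin (m i)), f ⟨i, j.succ⟩ ∈ L i := fun i j => by
    rw [f1]
    exact ((e i).symm j).2
  have hinj : Function.Injective f := by
    rintro ⟨i, u⟩ ⟨i', w⟩ h
    rcases Fin.eq_zero_or_eq_succ u with rfl | ⟨j, rfl⟩
    · rcases Fin.eq_zero_or_eq_succ w with rfl | ⟨j', rfl⟩
      · rw [f0, f0] at h
        rw [inj h]
      · rw [f0] at h
        exact absurd h (((hmemL _ _).1 (hfL i' j')).2.1 i)
    · rcases Fin.eq_zero_or_eq_succ w with rfl | ⟨j', rfl⟩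
      · rw [f0] at h
        exact absurd h.symm (((hmemL _ _).1 (hfL i j)).2.1 i')
      · have h1 := ((hmemL _ _).1 (hfL i j)).2.2
        have h2 := ((hmemL _ _).1 (hfL i' j')).2.2
        rw [h, h2] at h1
        subst h1
        rw [f1, f1] at h
        have h3 := (e i').symm.injective (Subtype.ext h)
        rw [h3]
  have hrange : ∀ x, 1 ≤ f x ∧ f x ≤ pp m := by
    rintro ⟨i, u⟩
    rcases Fin.eq_zero_or_eq_succ u with rfl | ⟨j, rfl⟩
    · exact hcen i
    · exact ((hmemL _ _).1 (hfL i j)).1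
  have himg : (univ : Finset (Σ i : Fin t, Fin (m i + 1))).image f = Icc 1 (pp m) := by
    refine eq_of_subset_of_card_le ?_ ?_
    · intro l hl
      obtain ⟨x, -, rfl⟩ := mem_image.1 hl
      exact mem_Icc.2 (hrange x)
    · rw [card_image_of_injective _ hinj, card_univ, card_vert, Nat.card_Icc]
      omega
  have hsurj : ∀ l, 1 ≤ l → l ≤ pp m → ∃ x, f x = l := by
    intro l h1 h2
    have : l ∈ (univ : Finset (Σ i : Fin t, Fin (m i + 1))).image f := by
      rw [himg]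
      exact mem_Icc.2 ⟨h1, h2⟩
    obtain ⟨x, -, hx⟩ := mem_image.1 this
    exact ⟨x, hx⟩
  have hAim : f '' {x | f x ≤ a} = Set.Icc 1 a := by
    ext l
    constructor
    · rintro ⟨x, hx, rfl⟩
      exact ⟨(hrange x).1, hx⟩
    · rintro ⟨h1, h2⟩
      obtain ⟨x, hx⟩ := hsurj l h1 (h2.trans ha)
      exact ⟨x, by rw [← hx] at h2; exact h2, hx⟩
  have hAc : {x | f x ≤ a}.ncard = a := by
    rw [← Set.ncard_image_of_injective _ hinj, hAim, Set.ncard_eq_toFinset_card']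
    simp
  refine ⟨{x | f x ≤ a}, f, ?_, ?_, ?_, s, ?_⟩
  · have key : ∀ i (j : Fin (m i)), (f ⟨i, 0⟩ ≤ a ↔ ¬ f ⟨i, j.succ⟩ ≤ a) := by
      intro i j
      have h1 := (hmemL _ _).1 (hfL i j)
      have h2 := side _ h1.1.1 h1.1.2 h1.2.1
      rw [h1.2.2] at h2
      rw [f0, h2]
      omega
    intro u v h
    have h1 : s(u, v) ∈ (starForest m).edgeSet := h
    rw [← range_edg] at h1
    obtain ⟨x, hx⟩ := h1
    unfold edg at hx
    rw [Sym2.eq_iff] at hx
    rcases hx with ⟨h2, h3⟩ | ⟨h2, h3⟩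
    · rw [← h2, ← h3]
      exact key x.1 x.2
    · rw [← h2, ← h3]
      have := key x.1 x.2
      simp only [Set.mem_ofPred_eq]
      tauto
  · refine ⟨fun x _ => ?_, hinj.injOn, fun l hl => ?_⟩
    · rw [card_vert]
      exact hrange x
    · rw [card_vert] at hl
      obtain ⟨x, hx⟩ := hsurj l hl.1 hl.2
      exact ⟨x, Set.mem_univ x, hx⟩
  · rw [hAc]
    exact hAim
  · rw [sums_eq, card_edge]
    symm
    have hsub : Set.Ico s (s + qq m) ⊆
        Set.range fun x : Σ i : Fin t, Fin (m i) => f ⟨x.1, 0⟩ + f ⟨x.1, x.2.succ⟩ := by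
      rintro v ⟨hv1, hv2⟩
      obtain ⟨l, h1, h2, h3, h4⟩ := cov v hv1 hv2
      have hl : l ∈ L (col l) := (hmemL _ _).2 ⟨⟨h1, h2⟩, h3, rfl⟩
      refine ⟨⟨col l, e (col l) ⟨l, hl⟩⟩, ?_⟩
      dsimp only
      rw [f0, f1, Equiv.symm_apply_apply]
      dsimp only
      rw [add_comm]
      exact h4
    refine Set.eq_of_subset_of_ncard_le hsub ?_ (Set.finite_range _)
    have h1 : (Set.Ico s (s + qq m)).ncard = qq m := by
      rw [Set.ncard_eq_toFinset_card']
      simp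
    rw [h1, ← Set.image_univ]
    refine (Set.ncard_image_le Set.finite_univ).trans ?_
    rw [Set.ncard_univ, Nat.card_eq_fintype_card, Fintype.card_sigma, qq]
    simp

/-- from a labeling to a colouring -/
theorem data_of (m : Fin (t + 1) → ℕ) (h : IsSSEM (starForest m)) :
    ∃ a cen col s, Dt m a cen col s ∧ ∀ l, 1 ≤ l → l ≤ pp m → (∀ j, cen j ≠ l) →
      s ≤ l + cen (col l) ∧ l + cen (col l) < s + qq m := by
  classical
  obtain ⟨A, f, hA, hbij, hAim, s, hs⟩ := h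
  rw [card_vert] at hbij
  rw [sums_eq, card_edge] at hs
  have hinj : Function.Injective f := Set.injOn_univ.1 hbij.injOn
  have hrange : ∀ x, 1 ≤ f x ∧ f x ≤ pp m := fun x => hbij.mapsTo (Set.mem_univ x)
  have hsurj : ∀ l, 1 ≤ l → l ≤ pp m → ∃ x, f x = l := fun l h1 h2 => by
    obtain ⟨x, -, hx⟩ := hbij.surjOn ⟨h1, h2⟩
    exact ⟨x, hx⟩
  set a := A.ncard with hadef
  have hmem : ∀ x, f x ≤ a ↔ x ∈ A := by
    intro x
    constructor
    · intro h
      have : f x ∈ f '' A := by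
        rw [hAim]
        exact ⟨(hrange x).1, h⟩
      obtain ⟨y, hy, hxy⟩ := this
      rw [← hinj hxy]
      exact hy
    · intro h
      have : f x ∈ f '' A := ⟨x, h, rfl⟩
      rw [hAim] at this
      exact this.2
  let cen : Fin (t + 1) → ℕ := fun i => f ⟨i, 0⟩
  let col : ℕ → Fin (t + 1) := fun l => if h : ∃ x, f x = l then (Classical.choose h).1 else 0
  have hcolf : ∀ x, col (f x) = x.1 := by
    intro x
    have h : ∃ y, f y = f x := ⟨x, rfl⟩
    show (if h : ∃ y, f y = f x then (Classical.choose h).1 else 0) = x.1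
    rw [dif_pos h]
    rw [hinj (Classical.choose_spec h)]
  have hleaf : ∀ l, 1 ≤ l → l ≤ pp m → (∀ j, cen j ≠ l) →
      ∃ i, ∃ j : Fin (m i), f ⟨i, j.succ⟩ = l := by
    intro l h1 h2 h3
    obtain ⟨⟨i, u⟩, hx⟩ := hsurj l h1 h2
    rcases Fin.eq_zero_or_eq_succ u with rfl | ⟨j, rfl⟩
    · exact absurd hx (h3 i)
    · exact ⟨i, j, hx⟩
  have hnc : ∀ i (j : Fin (m i)) i', cen i' ≠ f ⟨i, j.succ⟩ := by
    intro i j i' h
    have h1 := hinj h
    have h2 := congrArg Sigma.fst h1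
    dsimp only at h2
    subst h2
    have h4 := eq_of_heq (Sigma.mk.inj h1).2
    exact absurd h4.symm (Fin.succ_ne_zero _)
  have hap : a ≤ pp m := by
    rcases Nat.eq_zero_or_pos a with h0 | h0
    · omega
    · have : a ∈ f '' A := by
        rw [hAim]
        exact ⟨h0, le_rfl⟩
      obtain ⟨x, -, hx⟩ := this
      rw [← hx]
      exact (hrange x).2
  refine ⟨a, cen, col, s, ⟨hap, ?_, fun i => hrange _, ?_, ?_, ?_⟩, ?_⟩
  · intro i i' h
    have h1 := hinj h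
    exact congrArg Sigma.fst h1
  · intro i
    have e1 : (Icc 1 (pp m)).filter (fun l => (∀ j, cen j ≠ l) ∧ col l = i) =
        (univ : Finset (Fin (m i))).image fun j => f ⟨i, j.succ⟩ := by
      ext l
      simp only [mem_filter, mem_Icc, mem_image, mem_univ, true_and]
      constructor
      · rintro ⟨⟨h1, h2⟩, h3, h4⟩
        obtain ⟨i', j, hj⟩ := hleaf l h1 h2 h3
        rw [← hj, hcolf] at h4
        dsimp only at h4
        subst h4
        exact ⟨j, hj⟩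
      · rintro ⟨j, rfl⟩
        exact ⟨hrange _, hnc i j, hcolf _⟩
    rw [e1, card_image_of_injective, card_univ, Fintype.card_fin]
    intro j j' h
    have h1 := hinj h
    have h4 := eq_of_heq (Sigma.mk.inj h1).2
    exact Fin.succ_injective _ h4
  · intro l h1 h2 h3
    obtain ⟨i, j, rfl⟩ := hleaf l h1 h2 h3
    rw [hcolf]
    have h4 := hA _ _ (adj_leaf m i j)
    rw [← hmem, ← hmem] at h4
    show f ⟨i, j.succ⟩ ≤ a ↔ a < f ⟨i, 0⟩
    omega
  · intro v hv1 hv2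
    have : v ∈ Set.Ico s (s + qq m) := ⟨hv1, hv2⟩
    rw [← hs] at this
    obtain ⟨⟨i, j⟩, hx⟩ := this
    dsimp only at hx
    refine ⟨f ⟨i, j.succ⟩, (hrange _).1, (hrange _).2, hnc i j, ?_⟩
    rw [hcolf]
    show f ⟨i, j.succ⟩ + f ⟨i, 0⟩ = v
    omega
  · intro l h1 h2 h3
    obtain ⟨i, j, rfl⟩ := hleaf l h1 h2 h3
    rw [hcolf]
    have : f ⟨i, 0⟩ + f ⟨i, j.succ⟩ ∈ Set.Ico s (s + qq m) := by
      rw [← hs]
      exact ⟨⟨i, j⟩, rfl⟩
    show s ≤ f ⟨i, j.succ⟩ + f ⟨i, 0⟩ ∧ f ⟨i, j.succ⟩ + f ⟨i, 0⟩ < s + qq m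
    rw [add_comm]
    exact this

end Pool.Agent.Helper7.SF
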