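import Mathlib

/-!
# Special super edge-magic labelings of star forests: definitions
-/

set_option autoImplicit false

namespace Pool.Agent.Helper7.SF

/-- The graph `G` is special super edge-magic: its vertices have a partition into two stable sets
`A` and its complement, and a bijective labeling `f` by `1, ..., p` with `f(A) = {1, ..., |A|}`
such that the sums `f u + f v` over the edges `uv` are `q` consecutive integers, where `p` is the
number of vertices and `q` the number of edges. -/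
def IsSSEM {V : Type} [Fintype V] (G : SimpleGraph V) : Prop :=
  ∃ (A : Set V) (f : V → ℕ), (∀ u v, G.Adj u v → (u ∈ A ↔ v ∉ A)) ∧
    Set.BijOn f Set.univ (Set.Icc 1 (Fintype.card V)) ∧
    f '' A = Set.Icc 1 A.ncard ∧
    ∃ s : ℕ, {n | ∃ u v, G.Adj u v ∧ f u + f v = n} = Set.Ico s (s + G.edgeSet.ncard)

/-- The star forest `K_{1,m_1} ∪ ... ∪ K_{1,m_t}`: the vertices of the star number `i` are the
pairs `(i, j)` with `j ≤ m i`, its centre is `(i, 0)`. -/
def starForest {t : ℕ} (m : Fin t → ℕ) : SimpleGraph (Σ i : Fin t, Fin (m i + 1)) where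
  Adj x y := x.1 = y.1 ∧ ((x.2 : ℕ) = 0 ∧ (y.2 : ℕ) ≠ 0 ∨ (x.2 : ℕ) ≠ 0 ∧ (y.2 : ℕ) = 0)
  symm := ⟨fun _ _ h => ⟨h.1.symm, h.2.elim (fun h => Or.inr ⟨h.2, h.1⟩) fun h => Or.inl ⟨h.2, h.1⟩⟩⟩
  loopless := ⟨fun _ h => h.2.elim (fun h => h.2 h.1) fun h => h.1 h.2⟩

end Pool.Agent.Helper7.SF
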