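import Pool.Agent.Helper7.SF.Data
import Pool.Agent.Helper7.SF.Core

/-!
# Star forests with two and three components: necessary conditions
-/

set_option autoImplicit false

namespace Pool.Agent.Helper7.SF

open Finset

variable {t : ℕ}

/-- a colouring with all the values in the interval -/
def Dv (m : Fin t → ℕ) (a : ℕ) (cen : Fin t → ℕ) (col : ℕ → Fin t) (s : ℕ) : Prop :=
  Dt m a cen col s ∧ ∀ l, 1 ≤ l → l ≤ pp m → (∀ j, cen j ≠ l) →
    s ≤ l + cen (col l) ∧ l + cen (col l) < s + qq m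

theorem pp_eq (m : Fin t → ℕ) : pp m = qq m + t := by
  rw [pp, qq, sum_add_distrib]
  simp

/-- the labels of the leaves -/
def LL (m : Fin t → ℕ) (cen : Fin t → ℕ) : Finset ℕ :=
  (Icc 1 (pp m)).filter fun l => ∀ j, cen j ≠ l

theorem mem_LL {m : Fin t → ℕ} {cen : Fin t → ℕ} {l : ℕ} :
    l ∈ LL m cen ↔ 1 ≤ l ∧ l ≤ pp m ∧ ∀ j, cen j ≠ l := by
  rw [LL, mem_filter, mem_Icc, and_assoc]

/-- the labels of the leaves of one star -/
def Li (m : Fin t → ℕ) (cen : Fin t → ℕ) (col : ℕ → Fin t) (i : Fin t) : Finset ℕ :=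
  (Icc 1 (pp m)).filter (fun l => (∀ j, cen j ≠ l) ∧ col l = i)

theorem mem_Li {m : Fin t → ℕ} {cen : Fin t → ℕ} {col : ℕ → Fin t} {i : Fin t} {l : ℕ} :
    l ∈ Li m cen col i ↔ 1 ≤ l ∧ l ≤ pp m ∧ (∀ j, cen j ≠ l) ∧ col l = i := by
  rw [Li, mem_filter, mem_Icc, and_assoc]

theorem LL_filter {m : Fin t → ℕ} {cen : Fin t → ℕ} {col : ℕ → Fin t} (i : Fin t) :
    (LL m cen).filter (fun l => col l = i) = Li m cen col i := by
  rw [LL, Li, filter_filter]

theorem card_LL {m : Fin t → ℕ} {a : ℕ} {cen : Fin t → ℕ} {col : ℕ → Fin t} {s : ℕ}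
    (h : Dt m a cen col s) : (LL m cen).card = qq m := by
  rw [card_eq_sum_card_fiberwise (f := col) (s := LL m cen) (t := univ)
    (fun _ _ => mem_coe.2 (mem_univ _)), qq]
  refine sum_congr rfl fun i _ => ?_
  rw [LL_filter]
  exact h.hcol i

theorem sum_LL {m : Fin t → ℕ} {a : ℕ} {cen : Fin t → ℕ} {col : ℕ → Fin t} {s : ℕ}
    (h : Dt m a cen col s) : ∑ l ∈ LL m cen, cen (col l) = ∑ i, m i * cen i := by
  rw [← sum_fiberwise (LL m cen) col]
  refine sum_congr rfl fun i _ => ?_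
  rw [LL_filter]
  have : ∀ l ∈ Li m cen col i, cen (col l) = cen i := fun l hl => by
    rw [(mem_Li.1 hl).2.2.2]
  rw [sum_congr rfl this, sum_const, smul_eq_mul]
  congr 1
  exact h.hcol i

theorem cover_inj (B T : Finset ℕ) (φ : ℕ → ℕ) (h : ∀ v ∈ T, ∃ i ∈ B, φ i = v)
    (hc : B.card ≤ T.card) : Set.InjOn φ B := by
  have hsub : T ⊆ B.image φ := fun v hv => mem_image.2 (h v hv)
  rw [← card_image_iff]
  exact le_antisymm card_image_le (hc.trans (card_le_card hsub))

theorem cov_LL {m : Fin t → ℕ} {a : ℕ} {cen : Fin t → ℕ} {col : ℕ → Fin t} {s : ℕ}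
    (h : Dt m a cen col s) : ∀ v ∈ Ico s (s + qq m), ∃ l ∈ LL m cen, l + cen (col l) = v := by
  intro v hv
  rw [mem_Ico] at hv
  obtain ⟨l, h1, h2, h3, h4⟩ := h.cov v hv.1 hv.2
  exact ⟨l, mem_LL.2 ⟨h1, h2, h3⟩, h4⟩

theorem inj_LL {m : Fin t → ℕ} {a : ℕ} {cen : Fin t → ℕ} {col : ℕ → Fin t} {s : ℕ}
    (h : Dt m a cen col s) : Set.InjOn (fun l => l + cen (col l)) (LL m cen) :=
  cover_inj _ _ _ (cov_LL h) (by rw [card_LL h, Nat.card_Ico]; omega)

theorem total_LL {m : Fin t → ℕ} {a : ℕ} {cen : Fin t → ℕ} {col : ℕ → Fin t} {s : ℕ}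
    (h : Dt m a cen col s) : ∑ l ∈ LL m cen, l + ∑ i, m i * cen i =
      ∑ v ∈ Ico s (s + qq m), v := by
  have h1 := (sum_cover _ _ _ (cov_LL h) (by rw [card_LL h, Nat.card_Ico]; omega)).1
  rw [← h1, sum_add_distrib, sum_LL h]

theorem dv_rev {m : Fin t → ℕ} {a : ℕ} {cen : Fin t → ℕ} {col : ℕ → Fin t} {s : ℕ}
    (h : Dv m a cen col s) (hq : 1 ≤ qq m) :
    Dv m (pp m - a) (fun i => pp m + 1 - cen i) (fun l => col (pp m + 1 - l))
      (2 * pp m + 3 - s - qq m) := by
  obtain ⟨⟨ha, inj, hcen, hcol, side, cov⟩, hv⟩ := h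
  have hleaf : ∀ l, 1 ≤ l → l ≤ pp m → ((∀ j, pp m + 1 - cen j ≠ l) ↔
      ∀ j, cen j ≠ pp m + 1 - l) := by
    intro l h1 h2
    constructor
    · intro h3 j h4
      have := hcen j
      exact h3 j (by omega)
    · intro h3 j h4
      have := hcen j
      exact h3 j (by omega)
  have hs : s + qq m ≤ 2 * pp m + 1 := by
    obtain ⟨l, h1, h2, h3, h4⟩ := cov (s + qq m - 1) (by omega) (by omega)
    have := hcen (col l)
    omega
  refine ⟨⟨by omega, ?_, ?_, ?_, ?_, ?_⟩, ?_⟩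
  · intro i j hij
    have := hcen i
    have := hcen j
    dsimp only at hij
    exact inj (by omega)
  · intro i
    have := hcen i
    omega
  · intro i
    rw [← hcol i]
    refine card_bij (fun l _ => pp m + 1 - l) ?_ ?_ ?_
    · intro l hl
      rw [mem_filter, mem_Icc] at hl
      rw [mem_filter, mem_Icc]
      exact ⟨by omega, (hleaf l hl.1.1 hl.1.2).1 hl.2.1, hl.2.2⟩
    · intro l hl l' hl' hll
      rw [mem_filter, mem_Icc] at hl hl'
      omega
    · intro l hl
      rw [mem_filter, mem_Icc] at hl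
      have e : pp m + 1 - (pp m + 1 - l) = l := by omega
      refine ⟨pp m + 1 - l, ?_, e⟩
      rw [mem_filter, mem_Icc]
      refine ⟨by omega, (hleaf _ (by omega) (by omega)).2 ?_, ?_⟩
      · rw [e]
        exact hl.2.1
      · rw [e]
        exact hl.2.2
  · intro l h1 h2 h3
    have h4 := (hleaf l h1 h2).1 h3
    have h5 := side (pp m + 1 - l) (by omega) (by omega) h4
    have h6 := hcen (col (pp m + 1 - l))
    omega
  · intro v h1 h2
    obtain ⟨l, h3, h4, h5, h6⟩ := cov (2 * pp m + 2 - v) (by omega) (by omega)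
    have h7 := hcen (col l)
    have e : pp m + 1 - (pp m + 1 - l) = l := by omega
    refine ⟨pp m + 1 - l, by omega, by omega, (hleaf _ (by omega) (by omega)).2 ?_, ?_⟩
    · rw [e]
      exact h5
    · rw [e]
      omega
  · intro l h1 h2 h3
    have h4 := (hleaf l h1 h2).1 h3
    have h5 := hv (pp m + 1 - l) (by omega) (by omega) h4
    have h6 := hcen (col (pp m + 1 - l))
    dsimp only
    omega

/-- all the centres in the second stable set -/
theorem all_above {m : Fin t → ℕ} {a : ℕ} {cen : Fin t → ℕ} {col : ℕ → Fin t} {s : ℕ}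
    (h : Dv m a cen col s) (hab : ∀ i, a < cen i) (hq : 1 ≤ qq m) :
    a = qq m ∧ ∃ c, ∑ i, m i * (cen i - qq m) = qq m * c := by
  obtain ⟨hd, hv⟩ := h
  have e1 : LL m cen = Icc 1 a := by
    ext l
    rw [mem_LL, mem_Icc]
    constructor
    · rintro ⟨h1, h2, h3⟩
      exact ⟨h1, (hd.side l h1 h2 h3).2 (hab _)⟩
    · rintro ⟨h1, h2⟩
      refine ⟨h1, h2.trans hd.ha, fun j hj => ?_⟩
      have := hab j
      omega
  have h1 := card_LL hd
  rw [e1, Nat.card_Icc] at h1
  have ha : a = qq m := by omega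
  have hs : qq m + 2 ≤ s := by
    obtain ⟨l, h2, h3, h4, h5⟩ := hd.cov s le_rfl (by omega)
    have := hab (col l)
    omega
  refine ⟨ha, s - 1 - qq m, ?_⟩
  have h2 := total_LL hd
  rw [e1, ha] at h2
  have h3 : ∑ v ∈ Ico s (s + qq m), v = ∑ l ∈ Icc 1 (qq m), l + qq m * (s - 1) := by
    have e2 : Ico s (s + qq m) = (Icc 1 (qq m)).image fun l => l + (s - 1) := by
      ext v
      rw [mem_Ico, mem_image]
      constructor
      · intro hv
        exact ⟨v - (s - 1), mem_Icc.2 ⟨by omega, by omega⟩, by omega⟩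
      · rintro ⟨l, hl, rfl⟩
        rw [mem_Icc] at hl
        omega
    rw [e2, sum_image (by intro x _ y _ hxy; dsimp only at hxy; omega), sum_add_distrib,
      sum_const, Nat.card_Icc, smul_eq_mul]
    simp
  rw [h3] at h2
  have h4 : ∑ i, m i * cen i = qq m * (s - 1) := by omega
  have h5 : ∑ i, m i * cen i = ∑ i, m i * (cen i - qq m) + qq m * qq m := by
    have e3 : ∀ i, m i * cen i = m i * (cen i - qq m) + m i * qq m := by
      intro i
      rw [← mul_add]
      congr 1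
      have := hab i
      omega
    rw [sum_congr rfl fun i _ => e3 i, sum_add_distrib, ← sum_mul]
    rfl
  have e4 : qq m * (s - 1) = qq m * (s - 1 - qq m) + qq m * qq m := by
    rw [← mul_add]
    congr 1
    omega
  omega

end Pool.Agent.Helper7.SF
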