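import Pool.Agent.Helper7.SF.Three

/-!
# Star forests with one and three components: constructions
-/

set_option autoImplicit false

namespace Pool.Agent.Helper7.SF

open Finset

/-- one star -/
theorem one_suf (m : Fin 1 → ℕ) : IsSSEM (starForest m) := by
  have hp : pp m = m 0 + 1 := by rw [pp, Fin.sum_univ_one]
  have hq : qq m = m 0 := by rw [qq, Fin.sum_univ_one]
  refine ssem_of (a := 1) (cen := fun _ => 1) (col := fun _ => 0) (s := 3)
    ⟨by omega, fun i j _ => Subsingleton.elim i j, fun i => ⟨le_rfl, by omega⟩, ?_, ?_, ?_⟩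
  · intro i
    have hi : i = 0 := Subsingleton.elim _ _
    subst hi
    have e : (Icc 1 (pp m)).filter (fun l => (∀ _j : Fin 1, 1 ≠ l) ∧ (0 : Fin 1) = 0) =
        Icc 2 (pp m) := by
      ext l
      rw [mem_filter, mem_Icc, mem_Icc]
      constructor
      · rintro ⟨h1, h2, -⟩
        have := h2 0
        omega
      · intro h1
        exact ⟨by omega, fun _ => by omega, rfl⟩
    rw [e, Nat.card_Icc]
    omega
  · intro l h1 h2 h3
    have := h3 0
    constructor
    · intro h4
      omega
    · intro h4
      exact absurd h4 (lt_irrefl _)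
  · intro v h1 h2
    exact ⟨v - 1, by omega, by omega, fun _ => by omega, by omega⟩

/-- three stars with two equal sizes -/
theorem eq_suf (m : Fin 3 → ℕ) (hm : ∀ i, 1 ≤ m i) (i j l : Fin 3) (hij : i ≠ j) (hil : i ≠ l)
    (hjl : j ≠ l) (h : m i = m j) : IsSSEM (starForest m) := by
  have hcases := cases3 i j l hij hil hjl
  have hsum : ∀ f : Fin 3 → ℕ, ∑ x, f x = f i + f j + f l := by
    intro f
    rw [univ3 i j l hij hil hjl, sum_insert (by simp [hij, hil]), sum_insert (by simp [hjl]),
      sum_singleton, add_assoc]
  have hp : pp m = (m i + 1) + (m j + 1) + (m l + 1) := by rw [pp, hsum]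
  have hq : qq m = m i + m j + m l := by rw [qq, hsum]
  have hmi := hm i
  have hml := hm l
  set a := m i + m j + m l with ha
  set cen : Fin 3 → ℕ := fun x => if x = i then a + 1 else if x = j then a + 3 else a + 2
    with hcen
  have ci : cen i = a + 1 := by rw [hcen]; simp
  have cj : cen j = a + 3 := by rw [hcen]; simp [hij.symm]
  have cl : cen l = a + 2 := by rw [hcen]; simp [hil.symm, hjl.symm]
  set col : ℕ → Fin 3 := fun x => if x ≤ 2 * m i then (if x % 2 = 0 then i else j) else l
    with hcol
  have col0 : ∀ x, x ≤ 2 * m i → x % 2 = 0 → col x = i := by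
    intro x h1 h2
    rw [hcol]
    simp [h1, h2]
  have col1 : ∀ x, x ≤ 2 * m i → x % 2 = 1 → col x = j := by
    intro x h1 h2
    rw [hcol]
    simp [h1, h2]
  have col2 : ∀ x, 2 * m i < x → col x = l := by
    intro x h1
    rw [hcol]
    simp [h1]
  have hle : ∀ x, cen x ≤ a + 3 ∧ a < cen x := by
    intro x
    rcases hcases x with rfl | rfl | rfl <;> omega
  have hleaf : ∀ x, (x ≤ a → ∀ y, cen y ≠ x) := by
    intro x hx y
    have := hle y
    omega
  have hleaf2 : ∀ x, x ≤ a + 3 → (∀ y, cen y ≠ x) → x ≤ a := by
    intro x hx hy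
    have h1 := hy i
    have h2 := hy j
    have h3 := hy l
    omega
  refine ssem_of (a := a) (cen := cen) (col := col) (s := a + 3) ⟨by omega, ?_, ?_, ?_, ?_, ?_⟩
  · intro x y hxy
    rcases hcases x with rfl | rfl | rfl <;> rcases hcases y with rfl | rfl | rfl <;>
      first | rfl | (exfalso; omega)
  · intro x
    have := hle x
    omega
  · intro x
    rcases hcases x with rfl | rfl | rfl
    · have e : (Icc 1 (pp m)).filter (fun l => (∀ y, cen y ≠ l) ∧ col l = x) =
          (range (m x)).image fun u => 2 * u + 2 := by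
        ext w
        rw [mem_filter, mem_Icc, mem_image]
        constructor
        · rintro ⟨h1, h2, h3⟩
          have h4 := hleaf2 w (by omega) h2
          have h5 : w ≤ 2 * m x := by
            by_contra h5
            rw [col2 w (by omega)] at h3
            exact hil h3.symm
          have h6 : w % 2 = 0 := by
            by_contra h6
            rw [col1 w h5 (by omega)] at h3
            exact hij h3.symm
          exact ⟨w / 2 - 1, mem_range.2 (by omega), by omega⟩
        · rintro ⟨u, hu, rfl⟩
          rw [mem_range] at hu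
          exact ⟨by omega, hleaf _ (by omega), col0 _ (by omega) (by omega)⟩
      rw [e, card_image_of_injOn (by intro u _ u' _ huu; dsimp only at huu; omega), card_range]
    · have e : (Icc 1 (pp m)).filter (fun l => (∀ y, cen y ≠ l) ∧ col l = x) =
          (range (m x)).image fun u => 2 * u + 1 := by
        ext w
        rw [mem_filter, mem_Icc, mem_image]
        constructor
        · rintro ⟨h1, h2, h3⟩
          have h4 := hleaf2 w (by omega) h2
          have h5 : w ≤ 2 * m i := by
            by_contra h5
            rw [col2 w (by omega)] at h3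
            exact hjl h3.symm
          have h6 : w % 2 = 1 := by
            by_contra h6
            rw [col0 w h5 (by omega)] at h3
            exact hij h3
          exact ⟨w / 2, mem_range.2 (by omega), by omega⟩
        · rintro ⟨u, hu, rfl⟩
          rw [mem_range] at hu
          exact ⟨by omega, hleaf _ (by omega), col1 _ (by omega) (by omega)⟩
      rw [e, card_image_of_injOn (by intro u _ u' _ huu; dsimp only at huu; omega), card_range]
    · have e : (Icc 1 (pp m)).filter (fun l => (∀ y, cen y ≠ l) ∧ col l = x) =
          Icc (2 * m i + 1) a := by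
        ext w
        rw [mem_filter, mem_Icc, mem_Icc]
        constructor
        · rintro ⟨h1, h2, h3⟩
          have h4 := hleaf2 w (by omega) h2
          refine ⟨?_, h4⟩
          by_contra h5
          rcases Nat.mod_two_eq_zero_or_one w with h6 | h6
          · rw [col0 w (by omega) h6] at h3
            exact hil h3
          · rw [col1 w (by omega) h6] at h3
            exact hjl h3
        · intro h1
          exact ⟨by omega, hleaf _ (by omega), col2 _ (by omega)⟩
      rw [e, Nat.card_Icc]
      omega
  · intro x h1 h2 h3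
    have h4 := hleaf2 x (by omega) h3
    have h5 := hle (col x)
    exact ⟨fun _ => h5.2, fun _ => h4⟩
  · intro v h1 h2
    by_cases h3 : v - a - 2 ≤ 2 * m i
    · rcases Nat.mod_two_eq_zero_or_one (v - a - 2) with h4 | h4
      · refine ⟨v - a - 3, by omega, by omega, hleaf _ (by omega), ?_⟩
        rw [col1 _ (by omega) (by omega), cj]
        omega
      · refine ⟨v - a - 1, by omega, by omega, hleaf _ (by omega), ?_⟩
        rw [col0 _ (by omega) (by omega), ci]
        omega
    · refine ⟨v - a - 2, by omega, by omega, hleaf _ (by omega), ?_⟩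
      rw [col2 _ (by omega), cl]
      omega

/-- from a model with one and two centres to a labeling -/
theorem md_suf (m : Fin 3 → ℕ) (i j l : Fin 3) (hij : i ≠ j) (hil : i ≠ l)
    (hjl : j ≠ l) (i0 j1 j2 s : ℕ) (Z : Finset ℕ) (h1 : 1 ≤ i0) (h2 : i0 ≤ m j + m l + 1)
    (h3 : 1 ≤ j1) (h4 : j1 < j2) (h5 : j2 ≤ m i + 2)
    (hZ : ∀ x ∈ Z, 1 ≤ x ∧ x ≤ m j + m l + 1 ∧ x ≠ i0) (hcard : Z.card = m l)
    (hc : ∀ v, s ≤ v → v < s + (m i + m j + m l) →
      (∃ x, 1 ≤ x ∧ x ≤ m j + m l + 1 ∧ x ≠ i0 ∧ x ∉ Z ∧ x + j1 = v) ∨
      (∃ x ∈ Z, x + j2 = v) ∨ ∃ y, 1 ≤ y ∧ y ≤ m i + 2 ∧ y ≠ j1 ∧ y ≠ j2 ∧ y + i0 = v) :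
    IsSSEM (starForest m) := by
  classical
  have hcases := cases3 i j l hij hil hjl
  have hsum : ∀ f : Fin 3 → ℕ, ∑ x, f x = f i + f j + f l := by
    intro f
    rw [univ3 i j l hij hil hjl, sum_insert (by simp [hij, hil]), sum_insert (by simp [hjl]),
      sum_singleton, add_assoc]
  have hp : pp m = (m i + 1) + (m j + 1) + (m l + 1) := by rw [pp, hsum]
  have hq : qq m = m i + m j + m l := by rw [qq, hsum]
  set a := m j + m l + 1 with ha
  set cen : Fin 3 → ℕ := fun x => if x = i then i0 else if x = j then a + j1 else a + j2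
    with hcen
  have ci : cen i = i0 := by rw [hcen]; simp
  have cj : cen j = a + j1 := by rw [hcen]; simp [hij.symm]
  have cl : cen l = a + j2 := by rw [hcen]; simp [hil.symm, hjl.symm]
  set col : ℕ → Fin 3 := fun x => if x ≤ a then (if x ∈ Z then l else j) else i with hcol
  have col0 : ∀ x, x ≤ a → x ∈ Z → col x = l := by
    intro x h1 h2
    rw [hcol]
    simp [h1, h2]
  have col1 : ∀ x, x ≤ a → x ∉ Z → col x = j := by
    intro x h1 h2
    rw [hcol]
    simp [h1, h2]
  have col2 : ∀ x, a < x → col x = i := by
    intro x h1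
    rw [hcol]
    simp [h1]
  have hleaf : ∀ x, x ≠ i0 → x ≠ a + j1 → x ≠ a + j2 → ∀ y, cen y ≠ x := by
    intro x a1 a2 a3 y
    rcases hcases y with rfl | rfl | rfl <;> omega
  refine ssem_of (a := a) (cen := cen) (col := col) (s := s + a) ⟨by omega, ?_, ?_, ?_, ?_, ?_⟩
  · intro x y hxy
    rcases hcases x with rfl | rfl | rfl <;> rcases hcases y with rfl | rfl | rfl <;>
      first | rfl | (exfalso; omega)
  · intro x
    rcases hcases x with rfl | rfl | rfl <;> omega
  · intro x
    rcases hcases x with rfl | rfl | rfl
    · have e : (Icc 1 (pp m)).filter (fun l => (∀ y, cen y ≠ l) ∧ col l = x) =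
          ((Icc (a + 1) (pp m)).erase (a + j1)).erase (a + j2) := by
        ext w
        rw [mem_filter, mem_Icc, mem_erase, mem_erase, mem_Icc]
        constructor
        · rintro ⟨b1, b2, b3⟩
          have b4 := b2 j
          have b5 := b2 l
          refine ⟨by omega, by omega, ?_, by omega⟩
          by_contra b6
          by_cases b7 : w ∈ Z
          · rw [col0 w (by omega) b7] at b3
            exact hil b3.symm
          · rw [col1 w (by omega) b7] at b3
            exact hij b3.symm
        · rintro ⟨b1, b2, b3, b4⟩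
          exact ⟨by omega, hleaf w (by omega) b2 b1, col2 w (by omega)⟩
      rw [e, card_erase_of_mem, card_erase_of_mem, Nat.card_Icc]
      · omega
      · rw [mem_Icc]
        omega
      · rw [mem_erase, mem_Icc]
        omega
    · have e : (Icc 1 (pp m)).filter (fun l => (∀ y, cen y ≠ l) ∧ col l = x) =
          cmpl (m x) (m l) i0 Z := by
        ext w
        rw [mem_filter, mem_Icc, mem_cmpl]
        constructor
        · rintro ⟨b1, b2, b3⟩
          have b4 := b2 i
          have b6 : w ≤ a := by
            by_contra b6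
            rw [col2 w (by omega)] at b3
            exact hij b3
          refine ⟨b1.1, b6, by omega, ?_⟩
          intro b7
          rw [col0 w b6 b7] at b3
          exact hjl b3.symm
        · rintro ⟨b1, b2, b3, b4⟩
          exact ⟨by omega, hleaf w b3 (by omega) (by omega), col1 w b2 b4⟩
      rw [e]
      exact card_cmpl h1 h2 hZ hcard
    · have e : (Icc 1 (pp m)).filter (fun l => (∀ y, cen y ≠ l) ∧ col l = x) = Z := by
        ext w
        rw [mem_filter, mem_Icc]
        constructor
        · rintro ⟨b1, b2, b3⟩
          have b6 : w ≤ a := by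
            by_contra b6
            rw [col2 w (by omega)] at b3
            exact hil b3
          by_contra b7
          rw [col1 w b6 b7] at b3
          exact hjl b3
        · intro b1
          have b2 := hZ w b1
          exact ⟨by omega, hleaf w b2.2.2 (by omega) (by omega), col0 w b2.2.1 b1⟩
      rw [e]
      exact hcard
  · intro x b1 b2 b3
    constructor
    · intro b4
      by_cases b5 : x ∈ Z
      · rw [col0 x b4 b5]
        omega
      · rw [col1 x b4 b5]
        omega
    · intro b4
      by_contra b5
      rw [col2 x (by omega)] at b4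
      omega
  · intro v b1 b2
    rcases hc (v - a) (by omega) (by omega) with ⟨x, c1, c2, c3, c4, c5⟩ | ⟨x, c1, c2⟩ |
      ⟨y, c1, c2, c3, c4, c5⟩
    · refine ⟨x, c1, by omega, hleaf x c3 (by omega) (by omega), ?_⟩
      rw [col1 x c2 c4]
      omega
    · have c3 := hZ x c1
      refine ⟨x, c3.1, by omega, hleaf x c3.2.2 (by omega) (by omega), ?_⟩
      rw [col0 x c3.2.1 c1]
      omega
    · refine ⟨a + y, by omega, by omega, hleaf _ (by omega) (by omega) (by omega), ?_⟩
      rw [col2 _ (by omega)]
      omega

/-- three stars, one of size one -/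
theorem one_size_suf (m : Fin 3 → ℕ) (hm : ∀ i, 1 ≤ m i) (i j l : Fin 3) (hij : i ≠ j)
    (hil : i ≠ l) (hjl : j ≠ l) (h : m j = 1) : IsSSEM (starForest m) := by
  have hmi := hm i
  have hml := hm l
  refine md_suf m i j l hij hil hjl (m l + 1) 1 2 3 (Icc 1 (m l)) (by omega) (by omega) le_rfl
    (by omega) (by omega) ?_ (by rw [Nat.card_Icc]; omega) ?_
  · intro x hx
    rw [mem_Icc] at hx
    omega
  · intro v h1 h2
    by_cases h3 : v ≤ m l + 2
    · exact Or.inr (Or.inl ⟨v - 2, mem_Icc.2 ⟨by omega, by omega⟩, by omega⟩)
    · by_cases h4 : v = m l + 3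
      · refine Or.inl ⟨m l + 2, by omega, by omega, by omega, ?_, by omega⟩
        rw [mem_Icc]
        omega
      · exact Or.inr (Or.inr ⟨v - (m l + 1), by omega, by omega, by omega, by omega, by omega⟩)

/-- three stars, one of size two -/
theorem two_size_suf (m : Fin 3 → ℕ) (hm : ∀ i, 1 ≤ m i) (i j l : Fin 3) (hij : i ≠ j)
    (hil : i ≠ l) (hjl : j ≠ l) (h : m i = 2) : IsSSEM (starForest m) := by
  have hmj := hm j
  have hml := hm l
  have hnot : m j ∉ Icc (m j + 3) (m j + m l + 1) := by
    rw [mem_Icc]
    omega
  refine md_suf m i j l hij hil hjl (m j + 1) 2 3 3 (insert (m j) (Icc (m j + 3) (m j + m l + 1)))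
    (by omega) (by omega) (by omega) (by omega) (by omega) ?_ ?_ ?_
  · intro x hx
    rw [mem_insert, mem_Icc] at hx
    omega
  · rw [card_insert_of_notMem hnot, Nat.card_Icc]
    omega
  · intro v h1 h2
    by_cases h3 : v ≤ m j + 1
    · refine Or.inl ⟨v - 2, by omega, by omega, by omega, ?_, by omega⟩
      rw [mem_insert, mem_Icc]
      omega
    · by_cases h4 : v = m j + 2
      · exact Or.inr (Or.inr ⟨1, by omega, by omega, by omega, by omega, by omega⟩)
      · by_cases h5 : v = m j + 3
        · exact Or.inr (Or.inl ⟨m j, mem_insert_self _ _, by omega⟩)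
        · by_cases h6 : v = m j + 4
          · refine Or.inl ⟨m j + 2, by omega, by omega, by omega, ?_, by omega⟩
            rw [mem_insert, mem_Icc]
            omega
          · by_cases h7 : v = m j + 5
            · exact Or.inr (Or.inr ⟨4, by omega, by omega, by omega, by omega, by omega⟩)
            · refine Or.inr (Or.inl ⟨v - 3, mem_insert_of_mem (mem_Icc.2 ⟨by omega, by omega⟩),
                by omega⟩)

theorem no_mul {u u' d w : ℕ} (h1 : 0 < w) (h2 : w < d) : u * d + w ≠ u' * d := by
  intro h
  rcases Nat.lt_or_ge u u' with h3 | h3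
  · have h4 := Nat.mul_le_mul_right d (Nat.succ_le_of_lt h3)
    have h5 : (u + 1) * d = u * d + d := by ring
    rw [Nat.succ_eq_add_one, h5] at h4
    omega
  · have h4 := Nat.mul_le_mul_right d h3
    omega

/-- three stars, the exceptional family -/
theorem fam_suf (m : Fin 3 → ℕ) (hm : ∀ i, 1 ≤ m i) (i j l : Fin 3) (hij : i ≠ j)
    (hil : i ≠ l) (hjl : j ≠ l) (k r : ℕ) (h1 : m j = m i * k + r) (h2 : m l = m i * r + k) :
    IsSSEM (starForest m) := by
  classical
  have hmi := hm i
  set x := m i with hx
  obtain ⟨d, hd⟩ : ∃ d, d = x + 1 := ⟨_, rfl⟩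
  have ea : m j + m l + 1 = k * d + r * d + 1 := by
    rw [h1, h2, hd]
    ring
  have eq : x + m j + m l = x + k * d + r * d := by omega
  -- the rows with the second column
  set Z : Finset ℕ := (range k).image (fun u => u * d + 1) ∪
    (range r ×ˢ range x).image (fun e => k * d + 1 + (e.1 * d + e.2 + 1)) with hZdef
  have hmemZ : ∀ w, w ∈ Z ↔ (∃ u, u < k ∧ w = u * d + 1) ∨
      ∃ u e, u < r ∧ e < x ∧ w = k * d + 1 + (u * d + e + 1) := by
    intro w
    rw [hZdef, mem_union, mem_image, mem_image]
    constructor
    · rintro (⟨u, hu, rfl⟩ | ⟨⟨u, e⟩, hu, rfl⟩)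
      · exact Or.inl ⟨u, mem_range.1 hu, rfl⟩
      · rw [mem_product, mem_range, mem_range] at hu
        exact Or.inr ⟨u, e, hu.1, hu.2, rfl⟩
    · rintro (⟨u, hu, rfl⟩ | ⟨u, e, hu, he, rfl⟩)
      · exact Or.inl ⟨u, mem_range.2 hu, rfl⟩
      · exact Or.inr ⟨(u, e), mem_product.2 ⟨mem_range.2 hu, mem_range.2 he⟩, rfl⟩
  have hstep : ∀ u u' : ℕ, u < u' → u * d + d ≤ u' * d := by
    intro u u' h
    have h4 := Nat.mul_le_mul_right d (Nat.succ_le_of_lt h)
    have h5 : (u + 1) * d = u * d + d := by ring
    rw [Nat.succ_eq_add_one, h5] at h4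
    exact h4
  have hcard : Z.card = m l := by
    rw [hZdef, card_union_of_disjoint, card_image_of_injOn, card_image_of_injOn, card_range,
      card_product, card_range, card_range, h2]
    · ring
    · rintro ⟨u, e⟩ hu ⟨u', e'⟩ hu' huu
      have hu2 := mem_product.1 (mem_coe.1 hu)
      have hu3 := mem_product.1 (mem_coe.1 hu')
      rw [mem_range, mem_range] at hu2 hu3
      dsimp only at huu hu2 hu3
      have huu' : u = u' := by
        rcases lt_trichotomy u u' with h3 | h3 | h3
        · have := hstep _ _ h3
          omega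
        · exact h3
        · have := hstep _ _ h3
          omega
      subst huu'
      have : e = e' := by omega
      rw [this]
    · intro u _ u' _ huu
      dsimp only at huu
      rcases lt_trichotomy u u' with h3 | h3 | h3
      · have := hstep _ _ h3
        omega
      · exact h3
      · have := hstep _ _ h3
        omega
    · rw [disjoint_left]
      intro w hw hw'
      rw [mem_image] at hw hw'
      obtain ⟨u, hu, rfl⟩ := hw
      obtain ⟨⟨u', e⟩, hu', h3⟩ := hw'
      rw [mem_range] at hu
      have := hstep _ _ hu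
      dsimp only at h3
      omega
  refine md_suf m i j l hij hil hjl (k * d + 1) 1 (d + 1) 3 Z (by omega) (by omega) le_rfl
    (by omega) (by omega) ?_ hcard ?_
  · intro w hw
    rcases (hmemZ w).1 hw with ⟨u, hu, rfl⟩ | ⟨u, e, hu, he, rfl⟩
    · have := hstep _ _ hu
      omega
    · have := hstep _ _ hu
      omega
  · intro v hv1 hv2
    rw [← hx, eq] at hv2
    have hd0 : 0 < d := by omega
    rcases Nat.lt_or_ge (k * d + 1) v with hv3 | hv3
    · rcases Nat.lt_or_ge (k * d + 1 + d) v with hv4 | hv4
      · -- above
        rcases Nat.lt_or_ge (k * d + 1 + d + 1) v with hv5 | hv5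
        · obtain ⟨c, hc⟩ : ∃ c, v = k * d + 1 + d + 2 + c := ⟨v - (k * d + 1 + d + 2), by omega⟩
          obtain ⟨u, e, hmod, hdm⟩ : ∃ u e, e < d ∧ u * d + e = c :=
            ⟨c / d, c % d, Nat.mod_lt c hd0, by rw [mul_comm]; exact Nat.div_add_mod c d⟩
          have hur : u < r := by
            by_contra h3
            have h4 := Nat.mul_le_mul_right d (Nat.le_of_not_lt h3)
            omega
          rcases Nat.lt_or_ge e x with he | he
          · refine Or.inr (Or.inl ⟨k * d + 1 + (u * d + e + 1),
              (hmemZ _).2 (Or.inr ⟨u, e, hur, he, rfl⟩), by omega⟩)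
          · have hur2 : u + 1 < r := by
              by_contra h3
              have h4 := Nat.mul_le_mul_right d (Nat.le_of_not_lt h3)
              have h5 : (u + 1) * d = u * d + d := by ring
              rw [h5] at h4
              omega
            have h6 := hstep _ _ hur2
            have h5 : (u + 1) * d = u * d + d := by ring
            rw [h5] at h6
            refine Or.inl ⟨v - 1, by omega, by omega, by omega, ?_, by omega⟩
            intro h7
            rcases (hmemZ _).1 h7 with ⟨u', hu', h8⟩ | ⟨u', e', hu', he', h8⟩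
            · have := hstep _ _ hu'
              omega
            · refine no_mul (u := u') (u' := u + 2) (d := d) (w := e' + 1) (by omega) (by omega) ?_
              have h9 : (u + 2) * d = u * d + d + d := by ring
              rw [h9]
              omega
        · -- the value of the second special column plus one
          have hr : 0 < r := by
            by_contra h3
            have h4 : r = 0 := by omega
            subst h4
            omega
          have h6 := hstep _ _ hr
          refine Or.inl ⟨v - 1, by omega, by omega, by omega, ?_, by omega⟩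
          intro h7
          rcases (hmemZ _).1 h7 with ⟨u', hu', h8⟩ | ⟨u', e', hu', he', h8⟩
          · have := hstep _ _ hu'
            omega
          · refine no_mul (u := u') (u' := 1) (d := d) (w := e' + 1) (by omega) (by omega) ?_
            omega
      · by_cases hv5 : v = k * d + 2
        · -- the value e
          have hk : 0 < k := by
            by_contra h3
            have h4 : k = 0 := by omega
            subst h4
            omega
          obtain ⟨k', rfl⟩ : ∃ k', k = k' + 1 := ⟨k - 1, by omega⟩
          have h5 : (k' + 1) * d = k' * d + d := by ring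
          rw [h5] at hv5
          exact Or.inr (Or.inl ⟨k' * d + 1, (hmemZ _).2 (Or.inl ⟨k', by omega, rfl⟩), by omega⟩)
        · exact Or.inr (Or.inr ⟨v - (k * d + 1), by omega, by omega, by omega, by omega, by omega⟩)
    · -- below
      obtain ⟨c, hc⟩ : ∃ c, v = c + 2 := ⟨v - 2, by omega⟩
      obtain ⟨u, e, hmod, hdm⟩ : ∃ u e, e < d ∧ u * d + e = c :=
        ⟨c / d, c % d, Nat.mod_lt c hd0, by rw [mul_comm]; exact Nat.div_add_mod c d⟩
      rcases Nat.eq_zero_or_pos e with he | he
      · have hu : 0 < u := by
          by_contra h3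
          have h4 : u = 0 := by omega
          rw [h4] at hdm
          omega
        obtain ⟨u', hu'⟩ : ∃ u', u = u' + 1 := ⟨u - 1, by omega⟩
        have h5 : (u' + 1) * d = u' * d + d := by ring
        rw [hu', h5] at hdm
        have h6 : u' < k := by
          by_contra h7
          have h8 := Nat.mul_le_mul_right d (Nat.le_of_not_lt h7)
          omega
        exact Or.inr (Or.inl ⟨u' * d + 1, (hmemZ _).2 (Or.inl ⟨u', h6, rfl⟩), by omega⟩)
      · refine Or.inl ⟨v - 1, by omega, by omega, by omega, ?_, by omega⟩
        intro h7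
        rcases (hmemZ _).1 h7 with ⟨u', hu', h8⟩ | ⟨u', e', hu', he', h8⟩
        · exact no_mul (u := u) (u' := u') (d := d) (w := e) he (by omega) (by omega)
        · omega

theorem three_suf (m : Fin 3 → ℕ) (hm : ∀ i, 1 ≤ m i) (h : Cond m) : IsSSEM (starForest m) := by
  have third : ∀ i j : Fin 3, i ≠ j → ∃ l : Fin 3, i ≠ l ∧ j ≠ l := by decide
  have others : ∀ i : Fin 3, ∃ j l : Fin 3, i ≠ j ∧ i ≠ l ∧ j ≠ l := by decide
  rcases h with ⟨i, hi⟩ | ⟨i, j, hij, h⟩ | ⟨i, j, l, hij, hil, hjl, k, u, h1, h2⟩
  · obtain ⟨j, l, hij, hil, hjl⟩ := others i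
    have := hm i
    rcases Nat.lt_or_ge (m i) 2 with h3 | h3
    · exact one_size_suf m hm j i l hij.symm hjl hil (by omega)
    · exact two_size_suf m hm i j l hij hil hjl (by omega)
  · obtain ⟨l, hil, hjl⟩ := third i j hij
    exact eq_suf m hm i j l hij hil hjl h
  · exact fam_suf m hm i j l hij hil hjl k u h1 h2

end Pool.Agent.Helper7.SF
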