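import Pool.Agent.Helper7.SF.Nec

/-!
# Star forests with two and three components: necessary conditions, continued
-/

set_option autoImplicit false

namespace Pool.Agent.Helper7.SF

open Finset

theorem cases2 : ∀ i j : Fin 2, i ≠ j → ∀ x : Fin 2, x = i ∨ x = j := by decide

theorem pair2 : ∀ i j : Fin 2, i ≠ j → (i = 0 ∧ j = 1) ∨ (i = 1 ∧ j = 0) := by decide

theorem cases3 : ∀ i j l : Fin 3, i ≠ j → i ≠ l → j ≠ l → ∀ x : Fin 3, x = i ∨ x = j ∨ x = l := by
  decide

theorem univ3 : ∀ i j l : Fin 3, i ≠ j → i ≠ l → j ≠ l → (univ : Finset (Fin 3)) = {i, j, l} := by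
  decide

/-! ## Two stars -/

theorem two_above {m : Fin 2 → ℕ} {a : ℕ} {cen : Fin 2 → ℕ} {col : ℕ → Fin 2} {s : ℕ}
    (hm : ∀ i, 1 ≤ m i) (h : Dv m a cen col s) (hab : ∀ i, a < cen i) : False := by
  have hq : qq m = m 0 + m 1 := by rw [qq, Fin.sum_univ_two]
  have hp := pp_eq m
  obtain ⟨ha, c, hc⟩ := all_above h hab (by have := hm 0; omega)
  rw [Fin.sum_univ_two] at hc
  have h0 := h.1.hcen 0
  have h1 := h.1.hcen 1
  have h2 := hab 0
  have h3 := hab 1
  have h4 : cen 0 ≠ cen 1 := fun h5 => absurd (h.1.inj h5) (by decide)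
  have hm0 := hm 0
  have hm1 := hm 1
  have hr : (cen 0 - qq m = 1 ∧ cen 1 - qq m = 2) ∨ (cen 0 - qq m = 2 ∧ cen 1 - qq m = 1) := by
    omega
  rw [hq] at hc
  rw [hq] at hr
  rcases Nat.lt_or_ge c 2 with hc2 | hc2
  · interval_cases c
    · rcases hr with ⟨e1, e2⟩ | ⟨e1, e2⟩ <;> rw [e1, e2] at hc <;> omega
    · rcases hr with ⟨e1, e2⟩ | ⟨e1, e2⟩ <;> rw [e1, e2] at hc <;> omega
  · have h5 := Nat.mul_le_mul_left (m 0 + m 1) hc2
    rcases hr with ⟨e1, e2⟩ | ⟨e1, e2⟩ <;> rw [e1, e2] at hc <;> omega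

theorem two_mixed {m : Fin 2 → ℕ} {a : ℕ} {cen : Fin 2 → ℕ} {col : ℕ → Fin 2} {s : ℕ}
    (hm : ∀ i, 1 ≤ m i) (h : Dv m a cen col s) (i j : Fin 2) (hij : i ≠ j) (hi : cen i ≤ a)
    (hj : a < cen j) : False := by
  have hcases := cases2 i j hij
  have hsum : ∀ f : Fin 2 → ℕ, ∑ x, f x = f i + f j := by
    intro f
    rw [Fin.sum_univ_two]
    rcases pair2 i j hij with ⟨rfl, rfl⟩ | ⟨rfl, rfl⟩
    · rfl
    · exact add_comm _ _
  have hq : qq m = m i + m j := by rw [qq, hsum]
  have hp := pp_eq m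
  obtain ⟨hd, hv⟩ := h
  have hmi := hm i
  have hmj := hm j
  have hci := hd.hcen i
  have hcj := hd.hcen j
  have hleaf : ∀ l, l ≠ cen i → l ≠ cen j → ∀ x, cen x ≠ l := by
    intro l h1 h2 x
    rcases hcases x with rfl | rfl
    · exact h1.symm
    · exact h2.symm
  have hlow : ∀ l, 1 ≤ l → l ≤ pp m → (∀ x, cen x ≠ l) → l ≤ a → col l = j := by
    intro l h1 h2 h3 h4
    have h5 := (hd.side l h1 h2 h3).1 h4
    rcases hcases (col l) with h6 | h6
    · rw [h6] at h5
      omega
    · exact h6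
  have hhigh : ∀ l, 1 ≤ l → l ≤ pp m → (∀ x, cen x ≠ l) → a < l → col l = i := by
    intro l h1 h2 h3 h4
    have h5 := hd.side l h1 h2 h3
    rcases hcases (col l) with h6 | h6
    · exact h6
    · rw [h6] at h5
      omega
  -- the size of the first stable set
  have haj : a = m j + 1 := by
    have e : Icc 1 a = insert (cen i) (Li m cen col j) := by
      ext l
      rw [mem_Icc, mem_insert, mem_Li]
      constructor
      · rintro ⟨h1, h2⟩
        by_cases h3 : l = cen i
        · exact Or.inl h3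
        · have h4 := hleaf l h3 (by omega)
          exact Or.inr ⟨h1, h2.trans hd.ha, h4, hlow l h1 (h2.trans hd.ha) h4 h2⟩
      · rintro (rfl | ⟨h1, h2, h3, h4⟩)
        · exact ⟨hci.1, hi⟩
        · refine ⟨h1, (hd.side l h1 h2 h3).2 ?_⟩
          rw [h4]
          exact hj
    have h1 := congrArg Finset.card e
    rw [card_insert_of_notMem (fun h2 => (mem_Li.1 h2).2.2.1 i rfl), Nat.card_Icc] at h1
    have h2 : (Li m cen col j).card = m j := hd.hcol j
    omega
  have hcard := card_LL hd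
  have hinj := inj_LL hd
  have hmemLL : ∀ l, 1 ≤ l → l ≤ pp m → l ≠ cen i → l ≠ cen j → l ∈ LL m cen := by
    intro l h1 h2 h3 h4
    exact mem_LL.2 ⟨h1, h2, hleaf l h3 h4⟩
  -- the bounds for `s`
  have hs1 : a + 2 ≤ s := by
    obtain ⟨l, h2, h3, h4, h5⟩ := hd.cov s le_rfl (by omega)
    rcases Nat.lt_or_ge a l with h6 | h6
    · rw [hhigh l h2 h3 h4 h6] at h5
      omega
    · rw [hlow l h2 h3 h4 h6] at h5
      omega
  have hs2 : s + qq m ≤ a + pp m + 1 := by
    obtain ⟨l, h2, h3, h4, h5⟩ := hd.cov (s + qq m - 1) (by omega) (by omega)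
    rcases Nat.lt_or_ge a l with h6 | h6
    · rw [hhigh l h2 h3 h4 h6] at h5
      omega
    · rw [hlow l h2 h3 h4 h6] at h5
      omega
  -- the sum of the labels of the centres is not a value
  by_cases hlow2 : cen i + cen j < s
  · -- first leaves of both kinds
    have e1 : cen i = 1 := by omega
    have e2 : cen j = a + 1 := by omega
    have m1 := hmemLL 2 (by omega) (by omega) (by omega) (by omega)
    have m2 := hmemLL (a + 2) (by omega) (by omega) (by omega) (by omega)
    have c1 := hlow 2 (by omega) (by omega) (hleaf 2 (by omega) (by omega)) (by omega)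
    have c2 := hhigh (a + 2) (by omega) (by omega) (hleaf (a + 2) (by omega) (by omega))
      (by omega)
    have := hinj (mem_coe.2 m1) (mem_coe.2 m2) (by
      dsimp only
      rw [c1, c2, e1, e2]
      omega)
    omega
  · by_cases hhigh2 : s + qq m ≤ cen i + cen j
    · have e1 : cen i = a := by omega
      have e2 : cen j = pp m := by omega
      have m1 := hmemLL (a - 1) (by omega) (by omega) (by omega) (by omega)
      have m2 := hmemLL (pp m - 1) (by omega) (by omega) (by omega) (by omega)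
      have c1 := hlow (a - 1) (by omega) (by omega) (hleaf (a - 1) (by omega) (by omega))
        (by omega)
      have c2 := hhigh (pp m - 1) (by omega) (by omega)
        (hleaf (pp m - 1) (by omega) (by omega)) (by omega)
      have := hinj (mem_coe.2 m1) (mem_coe.2 m2) (by
        dsimp only
        rw [c1, c2, e1, e2]
        omega)
      omega
    · obtain ⟨l, h2, h3, h4, h5⟩ := hd.cov (cen i + cen j) (by omega) (by omega)
      rcases Nat.lt_or_ge a l with h6 | h6
      · rw [hhigh l h2 h3 h4 h6] at h5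
        exact h4 j (by omega)
      · rw [hlow l h2 h3 h4 h6] at h5
        exact h4 i (by omega)

theorem not_two (m : Fin 2 → ℕ) (hm : ∀ i, 1 ≤ m i) : ¬ IsSSEM (starForest m) := by
  intro h
  obtain ⟨a, cen, col, s, hd, hv⟩ := data_of m h
  have hq : qq m = m 0 + m 1 := by rw [qq, Fin.sum_univ_two]
  have h0 := hm 0
  have hD : Dv m a cen col s := ⟨hd, hv⟩
  rcases Nat.lt_or_ge a (cen 0) with h1 | h1
  · rcases Nat.lt_or_ge a (cen 1) with h2 | h2
    · refine two_above hm hD fun i => ?_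
      fin_cases i
      · exact h1
      · exact h2
    · exact two_mixed hm hD 1 0 (by decide) h2 h1
  · rcases Nat.lt_or_ge a (cen 1) with h2 | h2
    · exact two_mixed hm hD 0 1 (by decide) h1 h2
    · refine two_above hm (dv_rev hD (by omega)) fun i => ?_
      have h3 := hd.hcen i
      have h4 := hd.ha
      fin_cases i
      · have := hd.hcen 0
        show pp m - a < pp m + 1 - cen 0
        omega
      · have := hd.hcen 1
        show pp m - a < pp m + 1 - cen 1
        omega

/-! ## Three stars -/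

/-- the condition for three stars -/
def Cond (m : Fin 3 → ℕ) : Prop :=
  (∃ i, m i ≤ 2) ∨ (∃ i j, i ≠ j ∧ m i = m j) ∨
    ∃ i j l, i ≠ j ∧ i ≠ l ∧ j ≠ l ∧ ∃ k u, m j = m i * k + u ∧ m l = m i * u + k

theorem three_above {m : Fin 3 → ℕ} {a : ℕ} {cen : Fin 3 → ℕ} {col : ℕ → Fin 3} {s : ℕ}
    (hm : ∀ i, 1 ≤ m i) (h : Dv m a cen col s) (hab : ∀ i, a < cen i) : Cond m := by
  have hq : qq m = m 0 + m 1 + m 2 := by rw [qq, Fin.sum_univ_three]
  have hp := pp_eq m
  obtain ⟨ha, c, hc⟩ := all_above h hab (by have := hm 0; omega)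
  rw [Fin.sum_univ_three] at hc
  have h0 := h.1.hcen 0
  have h1 := h.1.hcen 1
  have h2 := h.1.hcen 2
  have g0 := hab 0
  have g1 := hab 1
  have g2 := hab 2
  have h4 : cen 0 ≠ cen 1 := fun h5 => absurd (h.1.inj h5) (by decide)
  have h5 : cen 0 ≠ cen 2 := fun h5 => absurd (h.1.inj h5) (by decide)
  have h6 : cen 1 ≠ cen 2 := fun h5 => absurd (h.1.inj h5) (by decide)
  have hm0 := hm 0
  have hm1 := hm 1
  have hm2 := hm 2
  right
  left
  have key : m 0 = m 1 ∨ m 0 = m 2 ∨ m 1 = m 2 := by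
    obtain ⟨r0, hr0⟩ : ∃ r, cen 0 - qq m = r := ⟨_, rfl⟩
    obtain ⟨r1, hr1⟩ : ∃ r, cen 1 - qq m = r := ⟨_, rfl⟩
    obtain ⟨r2, hr2⟩ : ∃ r, cen 2 - qq m = r := ⟨_, rfl⟩
    rw [hr0, hr1, hr2, hq] at hc
    have b0 : 1 ≤ r0 ∧ r0 ≤ 3 := by omega
    have b1 : 1 ≤ r1 ∧ r1 ≤ 3 := by omega
    have b2 : 1 ≤ r2 ∧ r2 ≤ 3 := by omega
    have d01 : r0 ≠ r1 := by omega
    have d02 : r0 ≠ r2 := by omega
    have d12 : r1 ≠ r2 := by omega
    have hc3 : c < 3 := by
      by_contra hc3
      have h7 := Nat.mul_le_mul_left (m 0 + m 1 + m 2) (Nat.le_of_not_lt hc3)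
      clear hr0 hr1 hr2 h0 h1 h2 g0 g1 g2 h4 h5 h6
      obtain ⟨b01, b02⟩ := b0
      obtain ⟨b11, b12⟩ := b1
      obtain ⟨b21, b22⟩ := b2
      interval_cases r0 <;> interval_cases r1 <;> interval_cases r2 <;> omega
    clear hr0 hr1 hr2 h0 h1 h2 g0 g1 g2 h4 h5 h6
    obtain ⟨b01, b02⟩ := b0
    obtain ⟨b11, b12⟩ := b1
    obtain ⟨b21, b22⟩ := b2
    interval_cases c <;> interval_cases r0 <;> interval_cases r1 <;> interval_cases r2 <;> omega
  rcases key with h | h | h
  · exact ⟨0, 1, by decide, h⟩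
  · exact ⟨0, 2, by decide, h⟩
  · exact ⟨1, 2, by decide, h⟩

theorem three_mixed {m : Fin 3 → ℕ} {a : ℕ} {cen : Fin 3 → ℕ} {col : ℕ → Fin 3} {s : ℕ}
    (hm : ∀ i, 1 ≤ m i) (h : Dv m a cen col s) (i j l : Fin 3) (hij : i ≠ j) (hil : i ≠ l)
    (hjl : j ≠ l) (hi : cen i ≤ a) (hj : a < cen j) (hlt : cen j < cen l) : Cond m := by
  have hcases := cases3 i j l hij hil hjl
  have hsum : ∀ f : Fin 3 → ℕ, ∑ x, f x = f i + f j + f l := by
    intro f
    rw [univ3 i j l hij hil hjl, sum_insert (by simp [hij, hil]), sum_insert (by simp [hjl]), sum_singleton, add_assoc]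
  have hq : qq m = m i + m j + m l := by rw [qq, hsum]
  have hp := pp_eq m
  obtain ⟨hd, hv⟩ := h
  have hmi := hm i
  have hmj := hm j
  have hml := hm l
  have hci := hd.hcen i
  have hcj := hd.hcen j
  have hcl := hd.hcen l
  have hleaf : ∀ x, x ≠ cen i → x ≠ cen j → x ≠ cen l → ∀ y, cen y ≠ x := by
    intro x h1 h2 h3 y
    rcases hcases y with rfl | rfl | rfl
    · exact h1.symm
    · exact h2.symm
    · exact h3.symm
  have hlow : ∀ x, 1 ≤ x → x ≤ pp m → (∀ y, cen y ≠ x) → x ≤ a → col x = j ∨ col x = l := by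
    intro x h1 h2 h3 h4
    have h5 := (hd.side x h1 h2 h3).1 h4
    rcases hcases (col x) with h6 | h6
    · rw [h6] at h5
      omega
    · exact h6
  have hhigh : ∀ x, 1 ≤ x → x ≤ pp m → (∀ y, cen y ≠ x) → a < x → col x = i := by
    intro x h1 h2 h3 h4
    have h5 := hd.side x h1 h2 h3
    rcases hcases (col x) with h6 | h6 | h6
    · exact h6
    · rw [h6] at h5
      omega
    · rw [h6] at h5
      omega
  have haj : a = m j + m l + 1 := by
    have e : Icc 1 a = insert (cen i) (Li m cen col j ∪ Li m cen col l) := by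
      ext x
      rw [mem_Icc, mem_insert, mem_union, mem_Li, mem_Li]
      constructor
      · rintro ⟨h1, h2⟩
        by_cases h3 : x = cen i
        · exact Or.inl h3
        · have h4 := hleaf x h3 (by omega) (by omega)
          rcases hlow x h1 (h2.trans hd.ha) h4 h2 with h5 | h5
          · exact Or.inr (Or.inl ⟨h1, h2.trans hd.ha, h4, h5⟩)
          · exact Or.inr (Or.inr ⟨h1, h2.trans hd.ha, h4, h5⟩)
      · rintro (rfl | ⟨h1, h2, h3, h4⟩ | ⟨h1, h2, h3, h4⟩)
        · exact ⟨hci.1, hi⟩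
        · refine ⟨h1, (hd.side x h1 h2 h3).2 ?_⟩
          rw [h4]
          exact hj
        · refine ⟨h1, (hd.side x h1 h2 h3).2 ?_⟩
          rw [h4]
          omega
    have hdisj : Disjoint (Li m cen col j) (Li m cen col l) := by
      rw [disjoint_left]
      intro x h1 h2
      exact hjl ((mem_Li.1 h1).2.2.2.symm.trans (mem_Li.1 h2).2.2.2)
    have h1 := congrArg Finset.card e
    rw [card_insert_of_notMem (fun h2 => (mem_union.1 h2).elim
      (fun h3 => (mem_Li.1 h3).2.2.1 i rfl) fun h3 => (mem_Li.1 h3).2.2.1 i rfl),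
      card_union_of_disjoint hdisj, Nat.card_Icc] at h1
    have h2 : (Li m cen col j).card = m j := hd.hcol j
    have h3 : (Li m cen col l).card = m l := hd.hcol l
    omega
  have hs1 : a + 2 ≤ s := by
    obtain ⟨x, h2, h3, h4, h5⟩ := hd.cov s le_rfl (by omega)
    rcases Nat.lt_or_ge a x with h6 | h6
    · rw [hhigh x h2 h3 h4 h6] at h5
      omega
    · rcases hlow x h2 h3 h4 h6 with h7 | h7
      · rw [h7] at h5
        omega
      · rw [h7] at h5
        omega
  have hMd : Md (m i) (m j) (m l) (cen i) (cen j - a) (cen l - a) (s - a) (Li m cen col l) := by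
    refine ⟨hci.1, by omega, by omega, by omega, by omega, ?_, hd.hcol l, ?_, ?_, ?_, ?_⟩
    · intro x hx
      obtain ⟨h1, h2, h3, h4⟩ := mem_Li.1 hx
      have h5 := hd.side x h1 h2 h3
      rw [h4] at h5
      have h6 := h3 i
      omega
    · intro v hv1 hv2
      obtain ⟨x, h2, h3, h4, h5⟩ := hd.cov (v + a) (by omega) (by omega)
      have h8 := h4 i
      have h9 := h4 j
      have h10 := h4 l
      rcases Nat.lt_or_ge a x with h6 | h6
      · rw [hhigh x h2 h3 h4 h6] at h5
        exact Or.inr (Or.inr ⟨x - a, by omega, by omega, by omega, by omega, by omega⟩)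
      · rcases hlow x h2 h3 h4 h6 with h7 | h7
        · refine Or.inl ⟨x, h2, by omega, by omega, ?_, ?_⟩
          · intro h11
            exact hjl (h7.symm.trans (mem_Li.1 h11).2.2.2)
          · rw [h7] at h5
            omega
        · refine Or.inr (Or.inl ⟨x, mem_Li.2 ⟨h2, h3, h4, h7⟩, ?_⟩)
          rw [h7] at h5
          omega
    · intro x h1 h2 h3 h4
      have h5 := hleaf x h3 (by omega) (by omega)
      have h6 := hv x h1 (by omega) h5
      rcases hlow x h1 (by omega) h5 (by omega) with h7 | h7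
      · rw [h7] at h6
        omega
      · exact absurd (mem_Li.2 ⟨h1, by omega, h5, h7⟩) h4
    · intro x hx
      obtain ⟨h1, h2, h3, h4⟩ := mem_Li.1 hx
      have h6 := hv x h1 h2 h3
      rw [h4] at h6
      omega
    · intro x h1 h2 h3 h4
      have h5 := hleaf (x + a) (by omega) (by omega) (by omega)
      have h6 := hv (x + a) (by omega) (by omega) h5
      rw [hhigh (x + a) (by omega) (by omega) h5 (by omega)] at h6
      omega
  rcases md_main hMd hmi hmj hml with h1 | h1 | h1 | ⟨k, u, h1, h2⟩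
  · exact Or.inl ⟨i, h1⟩
  · exact Or.inl ⟨j, h1⟩
  · exact Or.inl ⟨l, h1⟩
  · exact Or.inr (Or.inr ⟨i, j, l, hij, hil, hjl, k, u, h1, h2⟩)

theorem three_two {m : Fin 3 → ℕ} {a : ℕ} {cen : Fin 3 → ℕ} {col : ℕ → Fin 3} {s : ℕ}
    (hm : ∀ i, 1 ≤ m i) (h : Dv m a cen col s) (i j l : Fin 3) (hij : i ≠ j) (hil : i ≠ l)
    (hjl : j ≠ l) (hj : a < cen j) (hl : a < cen l) : Cond m := by
  have hcases := cases3 i j l hij hil hjl
  rcases Nat.lt_or_ge a (cen i) with h1 | h1
  · refine three_above hm h fun x => ?_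
    rcases hcases x with rfl | rfl | rfl
    · exact h1
    · exact hj
    · exact hl
  · have h2 : cen j ≠ cen l := fun h3 => hjl (h.1.inj h3)
    rcases Nat.lt_or_ge (cen j) (cen l) with h3 | h3
    · exact three_mixed hm h i j l hij hil hjl h1 hj h3
    · exact three_mixed hm h i l j hil hij hjl.symm h1 hl (by omega)

theorem three_nec (m : Fin 3 → ℕ) (hm : ∀ i, 1 ≤ m i) (h : IsSSEM (starForest m)) : Cond m := by
  obtain ⟨a, cen, col, s, hd, hv⟩ := data_of m h
  have hq : qq m = m 0 + m 1 + m 2 := by rw [qq, Fin.sum_univ_three]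
  have h0 := hm 0
  have hD : Dv m a cen col s := ⟨hd, hv⟩
  have hR := dv_rev hD (by omega)
  have hflip : ∀ x, cen x ≤ a → pp m - a < pp m + 1 - cen x := by
    intro x hx
    have := hd.hcen x
    have := hd.ha
    omega
  rcases Nat.lt_or_ge a (cen 0) with h1 | h1
  · rcases Nat.lt_or_ge a (cen 1) with h2 | h2
    · exact three_two hm hD 2 0 1 (by decide) (by decide) (by decide) h1 h2
    · rcases Nat.lt_or_ge a (cen 2) with h3 | h3
      · exact three_two hm hD 1 0 2 (by decide) (by decide) (by decide) h1 h3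
      · exact three_two hm hR 0 1 2 (by decide) (by decide) (by decide) (hflip 1 h2) (hflip 2 h3)
  · rcases Nat.lt_or_ge a (cen 1) with h2 | h2
    · rcases Nat.lt_or_ge a (cen 2) with h3 | h3
      · exact three_two hm hD 0 1 2 (by decide) (by decide) (by decide) h2 h3
      · exact three_two hm hR 1 0 2 (by decide) (by decide) (by decide) (hflip 0 h1) (hflip 2 h3)
    · exact three_two hm hR 2 0 1 (by decide) (by decide) (by decide) (hflip 0 h1) (hflip 1 h2)

end Pool.Agent.Helper7.SF
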